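import Pool.Agent.R832.NU.NoB

set_option autoImplicit false

open Polynomial

namespace Pool.Agent.R832.NU

section LA

variable {K : Type*} [Field K]

lemma exists_two {V : Type*} [AddCommGroup V] [Module K V] [Module.Finite K V]
    (h3 : Module.finrank K V = 3) {x : V} (hx : x ≠ 0) :
    ∃ y z : V, ∀ v : V, ∃ α β γ : K, v = α • x + (β • y + γ • z) := by
  have h1 := Submodule.finrank_quotient_add_finrank (Submodule.span K {x})
  rw [finrank_span_singleton hx, h3] at h1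
  have h2 : Module.finrank K (V ⧸ Submodule.span K {x}) = 2 := by omega
  set b := Module.finBasisOfFinrankEq K _ h2
  obtain ⟨y, hy⟩ := Submodule.mkQ_surjective _ (b 0)
  obtain ⟨z, hz⟩ := Submodule.mkQ_surjective _ (b 1)
  refine ⟨y, z, fun v => ?_⟩
  have h4 := b.sum_repr (Submodule.mkQ _ v)
  rw [Fin.sum_univ_two, ← hy, ← hz, ← map_smul, ← map_smul, ← map_add, eq_comm, ← sub_eq_zero,
    ← map_sub, Submodule.mkQ_apply, Submodule.Quotient.mk_eq_zero,
    Submodule.mem_span_singleton] at h4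
  obtain ⟨α, hα⟩ := h4
  exact ⟨α, (b.repr ((Submodule.span K {x}).mkQ v)) 0, (b.repr ((Submodule.span K {x}).mkQ v)) 1,
    by rw [hα]; abel⟩

end LA

section Basics

variable (K : Type*) [Field K] {A : Type*} [CommRing A] [Algebra K A] (m : Ideal A)

lemma mem_Cpart {a i : ℕ} {w : A ⧸ m ^ (i + 1)} : w ∈ Cpart K m a i ↔
    ∃ u : A, (∀ v ∈ m ^ (socDeg m + 1 - a - i), u * v = 0) ∧ u ∈ m ^ i ∧
      Ideal.Quotient.mk (m ^ (i + 1)) u = w := by
  constructor
  · rintro ⟨u, ⟨hu1, hu2⟩, rfl⟩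
    exact ⟨u, fun v hv => Submodule.mem_annihilator.mp hu1 v hv, hu2, rfl⟩
  · rintro ⟨u, hu1, hu2, rfl⟩
    exact ⟨u, ⟨Submodule.mem_annihilator.mpr fun v hv => hu1 v hv, hu2⟩, rfl⟩

lemma Cpart_eq_bot_iff {a i : ℕ} : Cpart K m a i = ⊥ ↔
    ∀ u ∈ m ^ i, (∀ v ∈ m ^ (socDeg m + 1 - a - i), u * v = 0) → u ∈ m ^ (i + 1) := by
  rw [Submodule.eq_bot_iff]
  constructor
  · intro h u hu hv
    rw [← Ideal.Quotient.eq_zero_iff_mem]
    exact h _ ((mem_Cpart K m).mpr ⟨u, hv, hu, rfl⟩)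
  · intro h w hw
    obtain ⟨u, hv, hu, rfl⟩ := (mem_Cpart K m).mp hw
    rw [Ideal.Quotient.eq_zero_iff_mem]
    exact h u hu hv

lemma Cpart_anti (a i : ℕ) : Cpart K m (a + 1) i ≤ Cpart K m a i := by
  intro w hw
  obtain ⟨u, hv, hu, rfl⟩ := (mem_Cpart K m).mp hw
  refine (mem_Cpart K m).mpr ⟨u, fun v hv' => hv v ?_, hu, rfl⟩
  exact Ideal.pow_le_pow_right (by omega) hv'

lemma Cpart_bot_of_large {a i : ℕ} (h : socDeg m + 1 - a - i = 0) : Cpart K m a i = ⊥ := by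
  rw [Cpart_eq_bot_iff]
  intro u hu hv
  rw [h, pow_zero, Ideal.one_eq_top] at hv
  have := hv 1 trivial
  rw [mul_one] at this
  rw [this]; exact Ideal.zero_mem _

variable {m}

lemma socDeg_bdd {n : ℕ} (hn : m ^ n = ⊥) : BddAbove {i : ℕ | m ^ i ≠ ⊥} := by
  refine ⟨n, fun i hi => ?_⟩
  by_contra hlt
  rw [not_le] at hlt
  apply hi
  rw [eq_bot_iff, ← hn]
  exact Ideal.pow_le_pow_right hlt.le

lemma pow_socDeg_succ {n : ℕ} (hn : m ^ n = ⊥) : m ^ (socDeg m + 1) = ⊥ := by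
  by_contra h
  have : socDeg m + 1 ≤ socDeg m := le_csSup (socDeg_bdd hn) h
  omega

lemma pow_socDeg_ne [Nontrivial A] {n : ℕ} (hn : m ^ n = ⊥) : m ^ socDeg m ≠ ⊥ := by
  have hne : {i : ℕ | m ^ i ≠ ⊥}.Nonempty := ⟨0, by
    show m ^ 0 ≠ ⊥
    rw [pow_zero, Ideal.one_eq_top]
    exact top_ne_bot⟩
  exact Nat.sSup_mem hne (socDeg_bdd hn)

end Basics

section Bridge

variable {K B : Type*} [Field K] [CommRing B] [Algebra K B] [Module.Finite K B] [Nontrivial B]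
  {m : Ideal B}

theorem no_B {n : ℕ} (hn : m ^ n = ⊥)
    (h0ge : ∀ i, 10 ≤ i → hilb K m 0 i = 0) (h09 : hilb K m 0 9 ≠ 0)
    (h1 : hilb K m 0 1 + hilb K m 1 1 = 3) (h7 : hilb K m 0 7 + hilb K m 1 7 = 4)
    (h11 : hilb K m 1 1 ≠ 0) (h14 : hilb K m 1 4 ≠ 0) (h12 : hilb K m 1 2 = 0)
    (h15 : hilb K m 1 5 = 0) (hu : ∀ u, 2 ≤ u → ∀ i, hilb K m u i = 0) : False := by
  have hfm : ∀ a i, Module.finrank K (Cpart K m (a + 1) i) ≤ Module.finrank K (Cpart K m a i) :=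
    fun a i => Submodule.finrank_mono (Cpart_anti K m a i)
  -- the socle degree
  have hj9 : 9 ≤ socDeg m := by
    refine le_csSup (socDeg_bdd hn) ?_
    intro h9
    apply h09
    have : Cpart K m 0 9 = ⊥ := by
      rw [Cpart_eq_bot_iff]
      intro u hu _
      rw [h9, Ideal.mem_bot] at hu
      rw [hu]; exact Ideal.zero_mem _
    rw [hilb, this, finrank_bot, Nat.zero_sub]
  have hj : socDeg m = 9 := by
    by_contra hne
    have hge : 10 ≤ socDeg m := by omega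
    have h2 := h0ge _ hge
    rw [hilb, Cpart_bot_of_large K m (a := 0 + 1) (i := socDeg m) (by omega), finrank_bot,
      Nat.sub_zero, Submodule.finrank_eq_zero, Cpart_eq_bot_iff] at h2
    apply pow_socDeg_ne hn
    rw [eq_bot_iff, ← pow_socDeg_succ hn]
    intro u hu
    refine h2 u hu fun v hv => ?_
    have e1 : socDeg m + 1 - 0 - socDeg m = 1 := by omega
    rw [e1] at hv
    have h3 : u * v ∈ m ^ (socDeg m + 1) := by
      rw [pow_add]; exact Ideal.mul_mem_mul hu hv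
    rwa [pow_socDeg_succ hn, Ideal.mem_bot] at h3
  have hnil : m ^ 10 = ⊥ := by
    have := pow_socDeg_succ hn
    rwa [hj] at this
  -- `C(2) = 0`
  have hC2 : ∀ i, Cpart K m 2 i = ⊥ := by
    intro i
    have key : ∀ k, Module.finrank K (Cpart K m 2 i) = Module.finrank K (Cpart K m (2 + k) i) := by
      intro k
      induction k with
      | zero => rfl
      | succ k ih =>
        rw [ih]
        have h2 := hu (2 + k) (by omega) i
        rw [hilb] at h2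
        have h3 := hfm (2 + k) i
        rw [show 2 + (k + 1) = 2 + k + 1 by ring]
        omega
    have h4 := key 10
    rw [Cpart_bot_of_large K m (a := 2 + 10) (i := i) (by omega), finrank_bot,
      Submodule.finrank_eq_zero] at h4
    exact h4
  have hC1 : ∀ i, hilb K m 1 i = Module.finrank K (Cpart K m 1 i) := by
    intro i
    rw [hilb, hC2 i, finrank_bot, Nat.sub_zero]
  have hC0 : ∀ i, hilb K m 0 i + hilb K m 1 i = Module.finrank K (Cpart K m 0 i) := by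
    intro i
    have := hfm 0 i
    rw [hC1, hilb]
    rw [zero_add] at *
    omega
  have hC0eq : ∀ i, Cpart K m 0 i = ((m ^ i).restrictScalars K).map
      (Ideal.Quotient.mkₐ K (m ^ (i + 1))).toLinearMap := by
    intro i
    ext w
    rw [mem_Cpart]
    constructor
    · rintro ⟨u, _, hu, rfl⟩
      exact ⟨u, hu, rfl⟩
    · rintro ⟨u, hu, rfl⟩
      refine ⟨u, fun v hv => ?_, hu, rfl⟩
      have h3 : u * v ∈ m ^ (i + (socDeg m + 1 - 0 - i)) := by
        rw [pow_add]; exact Ideal.mul_mem_mul hu hv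
      have h4 : u * v ∈ m ^ 10 := Ideal.pow_le_pow_right (by omega) h3
      rwa [hnil, Ideal.mem_bot] at h4
  -- F2
  have hF2 : ∀ u ∈ m ^ 2, (∀ v ∈ m ^ 7, u * v = 0) → u ∈ m ^ 3 := by
    rw [hC1, Submodule.finrank_eq_zero, Cpart_eq_bot_iff, hj] at h12
    exact h12
  have hF4 : ∀ u ∈ m ^ 5, (∀ v ∈ m ^ 4, u * v = 0) → u ∈ m ^ 6 := by
    rw [hC1, Submodule.finrank_eq_zero, Cpart_eq_bot_iff, hj] at h15
    exact h15
  have hF5 : ∀ u ∈ m ^ 4, (∀ v ∈ m ^ 4, u * v = 0) → u ∈ m ^ 5 := by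
    have := hC2 4
    rw [Cpart_eq_bot_iff, hj] at this
    exact this
  have hF1 : ∃ x ∈ m, x ∉ m ^ 2 ∧ ∀ u ∈ m ^ 8, x * u = 0 := by
    by_contra hcon
    push Not at hcon
    apply h11
    rw [hC1, Submodule.finrank_eq_zero, Cpart_eq_bot_iff, hj]
    intro u hu hv
    by_contra hu2
    rw [pow_one] at hu
    obtain ⟨v, hv1, hv2⟩ := hcon u hu hu2
    exact hv2 (hv v hv1)
  have hF3 : ∃ c ∈ m ^ 4, c ∉ m ^ 5 ∧ ∀ u ∈ m ^ 5, c * u = 0 := by
    by_contra hcon
    push Not at hcon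
    apply h14
    rw [hC1, Submodule.finrank_eq_zero, Cpart_eq_bot_iff, hj]
    intro u hu hv
    by_contra hu2
    obtain ⟨v, hv1, hv2⟩ := hcon u hu hu2
    exact hv2 (hv v hv1)
  obtain ⟨x, hx, hx2, hx8⟩ := hF1
  obtain ⟨c, hc, hc5, hcm⟩ := hF3
  rw [hC0, hC0eq] at h7 h1
  -- generators of `m`
  have hgen : ∃ y ∈ m, ∃ z ∈ m, ∀ u ∈ m, ∃ (α : K) (f : K[X]), f.natDegree ≤ 1 ∧
      u - (α • x + ev y z 1 f) ∈ m ^ 2 := by
    set V := ((m ^ 1).restrictScalars K).map (Ideal.Quotient.mkₐ K (m ^ (1 + 1))).toLinearMap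
      with hV
    have hxV : Ideal.Quotient.mk (m ^ (1 + 1)) x ∈ V := ⟨x, by rw [pow_one]; exact hx, rfl⟩
    have hx0 : (⟨_, hxV⟩ : V) ≠ 0 := by
      intro h
      apply hx2
      have := congrArg Subtype.val h
      exact Ideal.Quotient.eq_zero_iff_mem.mp this
    obtain ⟨⟨_, y, hy, rfl⟩, ⟨_, z, hz, rfl⟩, hyz⟩ := exists_two h1 hx0
    have hy' : y ∈ m := by
      have : y ∈ m ^ 1 := hy
      rwa [pow_one] at this
    have hz' : z ∈ m := by
      have : z ∈ m ^ 1 := hz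
      rwa [pow_one] at this
    refine ⟨y, hy', z, hz', fun u hu => ?_⟩
    have huV : Ideal.Quotient.mk (m ^ (1 + 1)) u ∈ V := ⟨u, by rw [pow_one]; exact hu, rfl⟩
    obtain ⟨α, β, γ, h⟩ := hyz ⟨_, huV⟩
    refine ⟨α, C γ + C β * X, by rw [add_comm]; exact natDegree_linear_le, ?_⟩
    have h2 := congrArg Subtype.val h
    have h3 : Ideal.Quotient.mk (m ^ (1 + 1)) u =
        Ideal.Quotient.mk (m ^ (1 + 1)) (α • x + (β • y + γ • z)) := h2
    rw [Ideal.Quotient.eq] at h3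
    have h4 : ev y z 1 (C γ + C β * X) = β • y + γ • z := by
      rw [map_add, ← smul_eq_C_mul, map_smul, ev_X y z one_ne_zero, ← mul_one (C γ),
        ← smul_eq_C_mul, map_smul, ev_one, Nat.sub_self, pow_zero, mul_one, pow_one, add_comm]
    rw [h4]
    exact h3
  obtain ⟨y, hy, z, hz, hgen⟩ := hgen
  exact main_contra hnil hx hy hz hx8 hF2 hgen hc hc5 hcm hF4 hF5 h7

end Bridge

end Pool.Agent.R832.NU
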