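import Mathlib

/-!
# Symmetric decompositions of Artinian Gorenstein local algebras

For a ring `A` with an ideal `m` (the maximal ideal of the local ring `A`):
* `socDeg m`: the socle degree `j`, the largest `i` with `m ^ i ≠ 0`;
* `Cpart K m a i`: the image of `(0 : m ^ (j + 1 - a - i)) ∩ m ^ i` in `m ^ i / m ^ (i + 1)`, a
  subspace of `A / m ^ (i + 1)`;
* `hilb K m a i = dim C(a)_i - dim C(a + 1)_i`, the value at `i` of the Hilbert function `H_A(a)` of
  `Q(a) = C(a) / C(a + 1)`.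
-/

set_option autoImplicit false

namespace Pool.Agent.R832.NU

/-- The socle degree: the largest `i` with `m ^ i ≠ 0`. -/
noncomputable def socDeg {A : Type*} [CommRing A] (m : Ideal A) : ℕ := sSup {i : ℕ | m ^ i ≠ ⊥}

/-- `C(a)_i`, the image of `(0 : m ^ (j + 1 - a - i)) ∩ m ^ i` in `m ^ i / m ^ (i + 1)`. (If
`a + i > j + 1`, the exponent is `0`, and `(0 : m ^ 0) = 0`.) -/
noncomputable def Cpart (K : Type*) [Field K] {A : Type*} [CommRing A] [Algebra K A] (m : Ideal A)
    (a i : ℕ) : Submodule K (A ⧸ m ^ (i + 1)) :=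
  (((m ^ (socDeg m + 1 - a - i)).annihilator ⊓ m ^ i).restrictScalars K).map
    (Ideal.Quotient.mkₐ K (m ^ (i + 1))).toLinearMap

/-- `H_A(a)_i = dim Q(a)_i`, `Q(a) = C(a) / C(a + 1)`. -/
noncomputable def hilb (K : Type*) [Field K] {A : Type*} [CommRing A] [Algebra K A] (m : Ideal A)
    (a i : ℕ) : ℕ :=
  Module.finrank K (Cpart K m a i) - Module.finrank K (Cpart K m (a + 1) i)

/-- The maximal ideal of `A = R / I`, `R = K[[x_1, …, x_r]]`. -/
noncomputable def mx {K : Type*} [Field K] {r : ℕ} (I : Ideal (MvPowerSeries (Fin r) K)) :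
    Ideal (MvPowerSeries (Fin r) K ⧸ I) :=
  (IsLocalRing.maximalIdeal (MvPowerSeries (Fin r) K)).map (Ideal.Quotient.mk I)

/-- `A = R / I` is an Artinian Gorenstein local algebra: it is nonzero, of finite dimension, and its
socle `(0 : m)` has dimension `1`. -/
def IsAG {K : Type*} [Field K] {r : ℕ} (I : Ideal (MvPowerSeries (Fin r) K)) : Prop :=
  I ≠ ⊤ ∧ Module.Finite K (MvPowerSeries (Fin r) K ⧸ I) ∧
    Module.finrank K ((mx I).annihilator.restrictScalars K) = 1

/-- The partial decomposition `D_{≤ a}(A)`, `A = R / I`, is non-ubiquitous: there is no AG algebra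
`B` with `H_B(u) = H_A(u)` for `u ≤ a` and `H_B(u) = 0` for `u > a`. -/
def NonUbiquitous {K : Type*} [Field K] {r : ℕ} (I : Ideal (MvPowerSeries (Fin r) K)) (a : ℕ) :
    Prop :=
  ¬ ∃ (s : ℕ) (J : Ideal (MvPowerSeries (Fin s) K)), IsAG J ∧
    (∀ u ≤ a, ∀ i, hilb K (mx J) u i = hilb K (mx I) u i) ∧ ∀ u > a, ∀ i, hilb K (mx J) u i = 0

end Pool.Agent.R832.NU
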