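import Pool.Agent.R832.NU.Bridge

set_option autoImplicit false

namespace Pool.Agent.R832.NU

/-- A basis of `A` adapted to the filtration by powers of `m` and to a dualizing functional `φ`. -/
structure Dual (K : Type*) [Field K] {A : Type*} [CommRing A] [Algebra K A] (m : Ideal A)
    (ι : Type*) [Fintype ι] [DecidableEq ι] where
  φ : A →ₗ[K] K
  b : ι → A
  σ : ι → ι
  o : ι → ℕ
  ε : ι → K
  σσ : ∀ s, σ (σ s) = s
  ε0 : ∀ s, ε s ≠ 0
  h1 : ∀ s t, φ (b s * b (σ t)) = if s = t then ε s else 0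
  h2 : ∀ a, (∀ s, φ (a * b s) = 0) → a = 0
  h3 : ∀ s, b s ∈ m ^ o s
  h4 : ∀ i, ∀ a ∈ m ^ i, ∀ s, o s < i → φ (a * b (σ s)) = 0

namespace Dual

variable {K : Type*} [Field K] {A : Type*} [CommRing A] [Algebra K A] {m : Ideal A}
  {ι : Type*} [Fintype ι] [DecidableEq ι] (D : Dual K m ι)

lemma φ_sum (c : ι → K) (t : ι) : D.φ ((∑ s, c s • D.b s) * D.b (D.σ t)) = c t * D.ε t := by
  rw [Finset.sum_mul, map_sum, Finset.sum_eq_single t]
  · rw [smul_mul_assoc, map_smul, D.h1, if_pos rfl, smul_eq_mul]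
  · intro s _ hs
    rw [smul_mul_assoc, map_smul, D.h1, if_neg hs, smul_zero]
  · intro h; exact absurd (Finset.mem_univ t) h

lemma expand (a : A) : a = ∑ s, (D.φ (a * D.b (D.σ s)) * (D.ε s)⁻¹) • D.b s := by
  rw [← sub_eq_zero]
  apply D.h2
  intro t
  have h := D.φ_sum (fun s => D.φ (a * D.b (D.σ s)) * (D.ε s)⁻¹) (D.σ t)
  rw [D.σσ] at h
  rw [sub_mul, map_sub, h, mul_assoc, inv_mul_cancel₀ (D.ε0 _), mul_one, sub_self]

include D in
lemma finite : Module.Finite K A := by
  classical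
  refine ⟨⟨Finset.univ.image D.b, ?_⟩⟩
  rw [eq_top_iff]
  intro a _
  rw [D.expand a]
  refine Submodule.sum_mem _ fun s _ => Submodule.smul_mem _ _ (Submodule.subset_span ?_)
  simp

/-- `φ (a b_s)` detects membership in `m ^ i`. -/
lemma mem_pow {i : ℕ} {a : A} : a ∈ m ^ i ↔ ∀ s, D.o s < i → D.φ (a * D.b (D.σ s)) = 0 := by
  constructor
  · exact fun h s hs => D.h4 i a h s hs
  · intro h
    rw [D.expand a]
    refine Ideal.sum_mem _ fun s _ => ?_
    rcases lt_or_ge (D.o s) i with hs | hs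
    · rw [h s hs, zero_mul, zero_smul]; exact Ideal.zero_mem _
    · rw [Algebra.smul_def]
      exact Ideal.mul_mem_left _ _ (Ideal.pow_le_pow_right hs (D.h3 s))

lemma mem_ann {k : ℕ} {a : A} :
    (∀ v ∈ m ^ k, a * v = 0) ↔ ∀ s, k ≤ D.o (D.σ s) → D.φ (a * D.b (D.σ s)) = 0 := by
  constructor
  · intro h s hs
    rw [h _ (Ideal.pow_le_pow_right hs (D.h3 _)), map_zero]
  · intro h v hv
    apply D.h2
    intro t
    have hvt : v * D.b t ∈ m ^ k := Ideal.mul_mem_right _ _ hv
    rw [mul_assoc, D.expand (v * D.b t), Finset.mul_sum, map_sum]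
    refine Finset.sum_eq_zero fun s _ => ?_
    rw [mul_smul_comm, map_smul]
    rcases lt_or_ge (D.o s) k with hs | hs
    · rw [D.h4 k _ hvt s hs, zero_mul, zero_smul]
    · have := h (D.σ s) (by rw [D.σσ]; exact hs)
      rw [D.σσ] at this
      rw [this, smul_zero]

/-- The dimension of `C(a)_i`. -/
lemma finrank_Cpart (a i : ℕ) : Module.finrank K (Cpart K m a i) =
    (Finset.univ.filter fun s => D.o s = i ∧ D.o (D.σ s) < socDeg m + 1 - a - i).card := by
  classical
  set k := socDeg m + 1 - a - i with hk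
  set S := Finset.univ.filter fun s => D.o s = i ∧ D.o (D.σ s) < k with hS
  have hmemS : ∀ s, s ∈ S ↔ D.o s = i ∧ D.o (D.σ s) < k := fun s => by
    rw [hS, Finset.mem_filter]; simp
  set v : S → A ⧸ m ^ (i + 1) := fun s => Ideal.Quotient.mk (m ^ (i + 1)) (D.b s) with hv
  have hli : LinearIndependent K v := by
    rw [Fintype.linearIndependent_iff]
    intro g hg t
    have h1 : Ideal.Quotient.mk (m ^ (i + 1))
        (∑ s, (if h : s ∈ S then g ⟨s, h⟩ else 0) • D.b s) = 0 := by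
      rw [← hg, map_sum]
      symm
      rw [← Finset.sum_subset (Finset.subset_univ S), ← Finset.sum_coe_sort S]
      · refine Finset.sum_congr rfl fun s _ => ?_
        rw [dif_pos s.2, hv]
        rfl
      · intro s _ hs
        rw [dif_neg hs, zero_smul, map_zero]
    rw [Ideal.Quotient.eq_zero_iff_mem, D.mem_pow] at h1
    have h2 := h1 t (by rw [((hmemS t).mp t.2).1]; omega)
    rw [D.φ_sum, dif_pos t.2] at h2
    exact (mul_eq_zero.mp h2).resolve_right (D.ε0 _)
  have hspan : Submodule.span K (Set.range v) = Cpart K m a i := by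
    apply le_antisymm
    · rw [Submodule.span_le]
      rintro _ ⟨s, rfl⟩
      obtain ⟨h1, h2⟩ := (hmemS s).mp s.2
      refine (mem_Cpart K m).mpr ⟨D.b s, ?_, ?_, rfl⟩
      · rw [D.mem_ann]
        intro t ht
        rw [D.h1, if_neg]
        rintro rfl
        omega
      · rw [← h1]; exact D.h3 _
    · intro w hw
      obtain ⟨u, hu1, hu2, rfl⟩ := (mem_Cpart K m).mp hw
      rw [D.mem_ann] at hu1
      rw [D.mem_pow] at hu2
      rw [D.expand u, map_sum]
      refine Submodule.sum_mem _ fun s _ => ?_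
      by_cases hs : s ∈ S
      · have h5 : Ideal.Quotient.mk (m ^ (i + 1)) (D.b s) ∈ Submodule.span K (Set.range v) :=
          Submodule.subset_span ⟨⟨s, hs⟩, rfl⟩
        exact Submodule.smul_mem _ (D.φ (u * D.b (D.σ s)) * (D.ε s)⁻¹) h5
      · rw [hmemS, not_and, not_lt] at hs
        rcases lt_trichotomy (D.o s) i with h | h | h
        · rw [hu2 s h, zero_mul, zero_smul, map_zero]; exact Submodule.zero_mem _
        · rw [hu1 s (hs h), zero_mul, zero_smul, map_zero]; exact Submodule.zero_mem _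
        · have : Ideal.Quotient.mk (m ^ (i + 1)) ((D.φ (u * D.b (D.σ s)) * (D.ε s)⁻¹) • D.b s) = 0 := by
            rw [Ideal.Quotient.eq_zero_iff_mem, Algebra.smul_def]
            exact Ideal.mul_mem_left _ _ (Ideal.pow_le_pow_right (by omega) (D.h3 s))
          rw [this]; exact Submodule.zero_mem _
  rw [← hspan, finrank_span_eq_card hli, Fintype.card_coe]

lemma socDeg_eq {j : ℕ} (hj : ∀ s, D.o s ≤ j) {s : ι} (hs : D.o s = j) : socDeg m = j := by
  have h1 : m ^ (j + 1) = ⊥ := by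
    rw [eq_bot_iff]
    intro a ha
    rw [Ideal.mem_bot, D.expand a]
    refine Finset.sum_eq_zero fun t _ => ?_
    rw [D.h4 _ a ha t (Nat.lt_succ_of_le (hj t)), zero_mul, zero_smul]
  have h2 : m ^ j ≠ ⊥ := by
    intro h
    have h3 : D.b s ∈ m ^ j := hs ▸ D.h3 s
    rw [h, Ideal.mem_bot] at h3
    have h4 := D.h1 s s
    rw [h3, zero_mul, map_zero, if_pos rfl] at h4
    exact D.ε0 s h4.symm
  apply le_antisymm
  · by_contra hlt
    rw [not_le] at hlt
    have h5 : m ^ socDeg m ≠ ⊥ := Nat.sSup_mem ⟨j, h2⟩ (socDeg_bdd h1)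
    apply h5
    rw [eq_bot_iff, ← h1]
    exact Ideal.pow_le_pow_right hlt
  · exact le_csSup (socDeg_bdd h1) h2

/-- The Hilbert function of `Q(a)`. -/
lemma hilb_eq {j : ℕ} (hj : socDeg m = j) (a i : ℕ) : hilb K m a i =
    (Finset.univ.filter fun s => D.o s = i ∧ D.o (D.σ s) + a + i = j).card := by
  classical
  rw [hilb, D.finrank_Cpart, D.finrank_Cpart, hj]
  rw [Nat.sub_eq_iff_eq_add (by
    refine Finset.card_le_card ?_
    intro s
    rw [Finset.mem_filter, Finset.mem_filter]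
    rintro ⟨h1, h2, h3⟩
    exact ⟨h1, h2, by omega⟩)]
  rw [← Finset.card_union_of_disjoint]
  · congr 1
    ext s
    rw [Finset.mem_union, Finset.mem_filter, Finset.mem_filter, Finset.mem_filter]
    constructor
    · rintro ⟨h1, h2, h3⟩
      by_cases h : D.o (D.σ s) + a + i = j
      · exact Or.inl ⟨h1, h2, h⟩
      · exact Or.inr ⟨h1, h2, by omega⟩
    · rintro (⟨h1, h2, h3⟩ | ⟨h1, h2, h3⟩)
      · exact ⟨h1, h2, by omega⟩
      · exact ⟨h1, h2, by omega⟩
  · rw [Finset.disjoint_left]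
    intro s
    rw [Finset.mem_filter, Finset.mem_filter]
    rintro ⟨_, h2, h3⟩ ⟨_, _, h5⟩
    omega

/-- The socle. -/
lemma finrank_socle {s₀ : ι} (hs₀ : ∀ s, D.o (D.σ s) = 0 ↔ s = s₀) :
    Module.finrank K (m.annihilator.restrictScalars K) = 1 := by
  have hmem : ∀ a : A, a ∈ m.annihilator.restrictScalars K ↔
      ∀ s, 1 ≤ D.o (D.σ s) → D.φ (a * D.b (D.σ s)) = 0 := by
    intro a
    rw [← D.mem_ann, pow_one]
    exact Submodule.mem_annihilator
  rw [finrank_eq_one_iff']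
  refine ⟨⟨D.b s₀, ?_⟩, ?_, ?_⟩
  · rw [hmem]
    intro s hs
    rw [D.h1, if_neg]
    rintro rfl
    rw [(hs₀ s₀).mpr rfl] at hs
    omega
  · intro h
    have h1 : D.b s₀ = 0 := congrArg Subtype.val h
    have h4 := D.h1 s₀ s₀
    rw [h1, zero_mul, map_zero, if_pos rfl] at h4
    exact D.ε0 s₀ h4.symm
  · rintro ⟨w, hw⟩
    refine ⟨D.φ (w * D.b (D.σ s₀)) * (D.ε s₀)⁻¹, ?_⟩
    apply Subtype.ext
    show (D.φ (w * D.b (D.σ s₀)) * (D.ε s₀)⁻¹) • D.b s₀ = w
    conv_rhs => rw [D.expand w]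
    rw [Finset.sum_eq_single s₀]
    · intro s _ hs
      rw [(hmem w).mp hw s, zero_mul, zero_smul]
      by_contra h
      exact hs ((hs₀ s).mp (by omega))
    · intro h; exact absurd (Finset.mem_univ s₀) h

end Dual

end Pool.Agent.R832.NU
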