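import Pool.Agent.R832.NU.PS

set_option autoImplicit false

open MvPowerSeries

namespace Pool.Agent.R832.NU

/-- Three distinct variables. -/
structure Three (τ : Type*) where
  x : τ
  y : τ
  z : τ
  xy : x ≠ y
  xz : x ≠ z
  yz : y ≠ z

section

variable {K : Type*} [Field K] {τ : Type*} [Fintype τ] [DecidableEq τ] (V : Three τ)

/-- The exponent of `x^a y^b z^c`. -/
noncomputable def E (a b c : ℕ) : τ →₀ ℕ :=
  Finsupp.single V.x a + Finsupp.single V.y b + Finsupp.single V.z c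

/-- the other variables. -/
abbrev Oth := {l : τ // l ≠ V.x ∧ l ≠ V.y ∧ l ≠ V.z}

@[simp] lemma E_x (a b c : ℕ) : E V a b c V.x = a := by
  simp [E, Finsupp.single_apply, V.xy.symm, V.xz.symm]
@[simp] lemma E_y (a b c : ℕ) : E V a b c V.y = b := by
  simp [E, Finsupp.single_apply, V.xy, V.yz.symm]
@[simp] lemma E_z (a b c : ℕ) : E V a b c V.z = c := by
  simp [E, Finsupp.single_apply, V.xz, V.yz]
@[simp] lemma E_oth (a b c : ℕ) (l : Oth V) : E V a b c l = 0 := by
  simp [E, Finsupp.single_apply, l.2.1.symm, l.2.2.1.symm, l.2.2.2.symm]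

lemma ext_iff4 {u v : τ →₀ ℕ} : u = v ↔ u V.x = v V.x ∧ u V.y = v V.y ∧ u V.z = v V.z ∧
    ∀ l : Oth V, u l = v l := by
  constructor
  · rintro rfl; exact ⟨rfl, rfl, rfl, fun _ => rfl⟩
  · rintro ⟨h1, h2, h3, h4⟩
    ext l
    by_cases hx : l = V.x
    · rw [hx]; exact h1
    by_cases hy : l = V.y
    · rw [hy]; exact h2
    by_cases hz : l = V.z
    · rw [hz]; exact h3
    exact h4 ⟨l, hx, hy, hz⟩

lemma le_iff4 {u v : τ →₀ ℕ} : u ≤ v ↔ u V.x ≤ v V.x ∧ u V.y ≤ v V.y ∧ u V.z ≤ v V.z ∧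
    ∀ l : Oth V, u l ≤ v l := by
  rw [Finsupp.le_def]
  constructor
  · intro h; exact ⟨h _, h _, h _, fun l => h l⟩
  · rintro ⟨h1, h2, h3, h4⟩ l
    by_cases hx : l = V.x
    · rw [hx]; exact h1
    by_cases hy : l = V.y
    · rw [hy]; exact h2
    by_cases hz : l = V.z
    · rw [hz]; exact h3
    exact h4 ⟨l, hx, hy, hz⟩

lemma E_inj {a b c a' b' c' : ℕ} : E V a b c = E V a' b' c' ↔ a = a' ∧ b = b' ∧ c = c' := by
  rw [ext_iff4 V]; simp

lemma E_le {a b c a' b' c' : ℕ} : E V a b c ≤ E V a' b' c' ↔ a ≤ a' ∧ b ≤ b' ∧ c ≤ c' := by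
  rw [le_iff4 V]; simp

lemma E_sub (a b c a' b' c' : ℕ) : E V a b c - E V a' b' c' = E V (a - a') (b - b') (c - c') := by
  rw [ext_iff4 V]; simp

lemma E_degree (a b c : ℕ) : (E V a b c).degree = a + b + c := by
  rw [E, map_add, map_add, Finsupp.degree_single, Finsupp.degree_single, Finsupp.degree_single]

lemma sx (l : Oth V) (k : ℕ) : Finsupp.single (l : τ) k V.x = 0 :=
  Finsupp.single_eq_of_ne l.2.1.symm
lemma sy (l : Oth V) (k : ℕ) : Finsupp.single (l : τ) k V.y = 0 :=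
  Finsupp.single_eq_of_ne l.2.2.1.symm
lemma sz (l : Oth V) (k : ℕ) : Finsupp.single (l : τ) k V.z = 0 :=
  Finsupp.single_eq_of_ne l.2.2.2.symm

lemma E_le_single {a b c k : ℕ} {l : Oth V} : E V a b c ≤ Finsupp.single (l : τ) k ↔
    a = 0 ∧ b = 0 ∧ c = 0 := by
  rw [le_iff4 V, sx, sy, sz]; simp

lemma E_zero : E V 0 0 0 = 0 := by simp [E]

lemma single_le_E {a b c k : ℕ} (hk : k ≠ 0) {l : Oth V} :
    ¬ Finsupp.single (l : τ) k ≤ E V a b c := by
  intro h
  have := h l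
  simp at this
  exact hk this

/-- The exponents of the dual generator. -/
noncomputable def tt : Fin 3 ⊕ Oth V → (τ →₀ ℕ) :=
  Sum.elim ![E V 0 3 6, E V 0 8 0, E V 1 0 7] (fun l => Finsupp.single (l : τ) 2)

/-- The functional `f ↦ (f ∘ F)(0)`, `F = Y^3 Z^6 + Y^8 + X Z^7 + Σ W^2`. -/
noncomputable def phi : MvPowerSeries τ K →ₗ[K] K := ∑ i, coeff (tt V i)

lemma phi_eq (f : MvPowerSeries τ K) : phi V f = ∑ i, coeff (tt V i) f := by
  rw [phi, LinearMap.sum_apply]

lemma phi_apply (f : MvPowerSeries τ K) : phi V f = coeff (E V 0 3 6) f + coeff (E V 0 8 0) f +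
    coeff (E V 1 0 7) f + ∑ l : Oth V, coeff (Finsupp.single (l : τ) 2) f := by
  rw [phi_eq, Fintype.sum_sum_type, Fin.sum_univ_three]
  rfl

lemma coeff_mul_mono (t v : τ →₀ ℕ) (f : MvPowerSeries τ K) :
    coeff t (f * monomial v 1) = if v ≤ t then coeff (t - v) f else 0 := by
  classical
  rw [coeff_mul_monomial]
  simp

lemma phi_mul_E (f : MvPowerSeries τ K) (a b c : ℕ) : phi V (f * monomial (E V a b c) 1) =
    (if a ≤ 0 ∧ b ≤ 3 ∧ c ≤ 6 then coeff (E V (0 - a) (3 - b) (6 - c)) f else 0) +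
    (if a ≤ 0 ∧ b ≤ 8 ∧ c ≤ 0 then coeff (E V (0 - a) (8 - b) (0 - c)) f else 0) +
    (if a ≤ 1 ∧ b ≤ 0 ∧ c ≤ 7 then coeff (E V (1 - a) (0 - b) (7 - c)) f else 0) +
    (if a = 0 ∧ b = 0 ∧ c = 0 then ∑ l : Oth V, coeff (Finsupp.single (l : τ) 2) f else 0) := by
  rw [phi_apply]
  congr 1
  · simp only [coeff_mul_mono, E_le, E_sub]
  · by_cases h : a = 0 ∧ b = 0 ∧ c = 0
    · rw [if_pos h]
      obtain ⟨rfl, rfl, rfl⟩ := h
      rw [E_zero, monomial_zero_one, mul_one]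
    · rw [if_neg h]
      refine Finset.sum_eq_zero fun l _ => ?_
      rw [coeff_mul_mono, if_neg]
      rw [E_le_single]; exact h

lemma single_le_single {l l' : Oth V} {k k' : ℕ} (hk : k ≠ 0) :
    Finsupp.single (l : τ) k ≤ Finsupp.single (l' : τ) k' ↔ l = l' ∧ k ≤ k' := by
  rw [Finsupp.single_le_iff, Finsupp.single_apply]
  by_cases h : l = l'
  · subst h; simp
  · have h' : ¬ ((l' : τ) = (l : τ)) := fun h2 => h (Subtype.ext h2.symm)
    rw [if_neg h']
    constructor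
    · intro h3; omega
    · rintro ⟨h3, _⟩; exact absurd h3 h

lemma phi_mul_w (f : MvPowerSeries τ K) (l : Oth V) {k : ℕ} (hk : k ≠ 0) :
    phi V (f * monomial (Finsupp.single (l : τ) k) 1) =
      if k ≤ 2 then coeff (Finsupp.single (l : τ) (2 - k)) f else 0 := by
  rw [phi_apply]
  simp only [coeff_mul_mono, if_neg (single_le_E V hk)]
  rw [Finset.sum_eq_single l]
  · simp only [single_le_single V hk, true_and, zero_add]
    congr 1
    rw [← Finsupp.single_tsub]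
  · intro l' _ hl'
    rw [if_neg]
    rw [single_le_single V hk]
    rintro ⟨h, _⟩
    exact hl' h.symm
  · intro h; exact absurd (Finset.mem_univ l) h

/-- the index set of the basis. -/
abbrev Idx := (Fin 4 × Fin 7) ⊕ (Fin 5 ⊕ Oth V)

/-- monomials. -/
noncomputable abbrev mo (K : Type*) [Field K] (a b c : ℕ) : MvPowerSeries τ K :=
  monomial (E V a b c) 1

/-- the adapted basis, lifted to power series. -/
noncomputable def bb (K : Type*) [Field K] : Idx V → MvPowerSeries τ K :=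
  Sum.elim (fun p => mo V K 0 p.1 p.2) (Sum.elim
    ![mo V K 1 0 0, mo V K 0 0 7, mo V K 0 4 0, mo V K 1 0 1 - mo V K 0 3 0,
      mo V K 0 5 0 - mo V K 0 0 6]
    (fun l => monomial (Finsupp.single (l : τ) 1) 1))

/-- the involution. -/
def sg : Idx V → Idx V :=
  Sum.map (fun p => (Fin.rev p.1, Fin.rev p.2)) (Sum.map ![1, 0, 2, 4, 3] id)

/-- the orders. -/
def oo : Idx V → ℕ :=
  Sum.elim (fun p => (p.1 : ℕ) + p.2) (Sum.elim ![1, 7, 4, 2, 5] (fun _ => 1))

/-- the signs. -/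
def ee (K : Type*) [Field K] : Idx V → K :=
  Sum.elim (fun _ => 1) (Sum.elim ![1, 1, 1, -1, -1] (fun _ => 1))

lemma sg_sg (s : Idx V) : sg V (sg V s) = s := by
  rcases s with ⟨i, j⟩ | k | l
  · simp [sg]
  · fin_cases k <;> simp [sg]
  · simp [sg]

lemma ee_ne (s : Idx V) : ee V K s ≠ 0 := by
  rcases s with ⟨i, j⟩ | k | l
  · simp [ee]
  · fin_cases k <;> simp [ee]
  · simp [ee]

/-- the functionals `f ↦ φ(f b_{σ s})`. -/
noncomputable def ps (f : MvPowerSeries τ K) : Idx V → K :=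
  Sum.elim (fun p => coeff (E V 0 p.1 p.2) f +
      (if (p.2 : ℕ) = 6 then coeff (E V 0 (5 + p.1) 0) f else 0) +
      (if (p.1 : ℕ) = 3 then coeff (E V 1 0 (1 + p.2)) f else 0) +
      (if (p.1 : ℕ) = 3 ∧ (p.2 : ℕ) = 6 then ∑ l : Oth V, coeff (Finsupp.single (l : τ) 2) f else 0))
    (Sum.elim ![coeff (E V 1 0 0) f, coeff (E V 0 0 7) f, coeff (E V 0 4 0) f,
      - coeff (E V 1 0 1) f, - coeff (E V 0 5 0) f]
    (fun l => coeff (Finsupp.single (l : τ) 1) f))

lemma phi_mul_bb (f : MvPowerSeries τ K) (s : Idx V) : phi V (f * bb V K (sg V s)) = ps V f s := by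
  rcases s with ⟨i, j⟩ | k | l
  · show phi V (f * monomial (E V 0 (Fin.rev i) (Fin.rev j)) 1) = _
    rw [phi_mul_E, Fin.val_rev, Fin.val_rev]
    have hi := i.2
    have hj := j.2
    show _ = coeff (E V 0 i j) f + (if (j : ℕ) = 6 then coeff (E V 0 (5 + i) 0) f else 0) +
      (if (i : ℕ) = 3 then coeff (E V 1 0 (1 + j)) f else 0) +
      (if (i : ℕ) = 3 ∧ (j : ℕ) = 6 then ∑ l : Oth V, coeff (Finsupp.single (l : τ) 2) f else 0)
    congr 1
    · congr 1
      · congr 1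
        · rw [if_pos (by omega), show 3 - (4 - ((i : ℕ) + 1)) = i by omega,
            show 6 - (7 - ((j : ℕ) + 1)) = j by omega]
        · by_cases h : (j : ℕ) = 6
          · rw [if_pos (by omega), if_pos h, show 8 - (4 - ((i : ℕ) + 1)) = 5 + i by omega]
            rw [Nat.zero_sub, Nat.zero_sub]
          · rw [if_neg (by omega), if_neg h]
      · by_cases h : (i : ℕ) = 3
        · rw [if_pos (by omega), if_pos h, show 7 - (7 - ((j : ℕ) + 1)) = 1 + j by omega]
          rw [Nat.zero_sub, Nat.sub_zero]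
        · rw [if_neg (by omega), if_neg h]
    · by_cases h : (i : ℕ) = 3 ∧ (j : ℕ) = 6
      · rw [if_pos (by omega), if_pos h]
      · rw [if_neg (by omega), if_neg h]
  · fin_cases k
    · show phi V (f * mo V K 0 0 7) = coeff (E V 1 0 0) f
      rw [phi_mul_E]; norm_num
    · show phi V (f * mo V K 1 0 0) = coeff (E V 0 0 7) f
      rw [phi_mul_E]; norm_num
    · show phi V (f * mo V K 0 4 0) = coeff (E V 0 4 0) f
      rw [phi_mul_E]; norm_num
    · show phi V (f * (mo V K 0 5 0 - mo V K 0 0 6)) = - coeff (E V 1 0 1) f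
      rw [mul_sub, map_sub, phi_mul_E, phi_mul_E]; norm_num
    · show phi V (f * (mo V K 1 0 1 - mo V K 0 3 0)) = - coeff (E V 0 5 0) f
      rw [mul_sub, map_sub, phi_mul_E, phi_mul_E]; norm_num
  · show phi V (f * monomial (Finsupp.single (l : τ) 1) 1) = coeff (Finsupp.single (l : τ) 1) f
    rw [phi_mul_w V f l one_ne_zero]
    norm_num

end

end Pool.Agent.R832.NU
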