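import Pool.Agent.R832.NU.Ex

set_option autoImplicit false

open MvPowerSeries

namespace Pool.Agent.R832.NU

section

variable {K : Type*} [Field K] {τ : Type*} [Fintype τ] [DecidableEq τ] (V : Three τ)

lemma coeff_E_mo (a b c a' b' c' : ℕ) : coeff (E V a b c) (mo V K a' b' c') =
    if a = a' ∧ b = b' ∧ c = c' then 1 else 0 := by
  classical
  rw [coeff_monomial]
  simp only [E_inj]

lemma single_ne_E {a b c k : ℕ} (hk : k ≠ 0) (l : Oth V) :
    Finsupp.single (l : τ) k ≠ E V a b c := by
  intro h
  have := DFunLike.congr_fun h (l : τ)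
  simp at this
  exact hk this

lemma coeff_single_mo {a b c k : ℕ} (hk : k ≠ 0) (l : Oth V) :
    coeff (Finsupp.single (l : τ) k) (mo V K a b c) = 0 :=
  coeff_monomial_ne (single_ne_E V hk l) _

lemma coeff_E_w {a b c k : ℕ} (hk : k ≠ 0) (l : Oth V) :
    coeff (E V a b c) (monomial (Finsupp.single (l : τ) k) (1 : K)) = 0 :=
  coeff_monomial_ne (single_ne_E V hk l).symm _

lemma coeff_w_w {k : ℕ} (hk : k ≠ 0) (l l' : Oth V) :
    coeff (Finsupp.single (l : τ) k) (monomial (Finsupp.single (l' : τ) 1) (1 : K)) =
      if k = 1 ∧ l' = l then 1 else 0 := by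
  classical
  rw [coeff_monomial]
  congr 1
  rw [eq_iff_iff]
  constructor
  · intro h
    have h1 := DFunLike.congr_fun h (l : τ)
    rw [Finsupp.single_eq_same, Finsupp.single_apply] at h1
    split_ifs at h1 with h2
    · exact ⟨h1, Subtype.ext h2⟩
    · exact absurd h1 hk
  · rintro ⟨rfl, rfl⟩; rfl

lemma ps_bb (s t : Idx V) : ps V (bb V K s) t = if s = t then ee V K s else 0 := by
  rcases t with ⟨i', j'⟩ | k' | l'
  · show coeff (E V 0 i' j') (bb V K s) +
      (if (j' : ℕ) = 6 then coeff (E V 0 (5 + i') 0) (bb V K s) else 0) +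
      (if (i' : ℕ) = 3 then coeff (E V 1 0 (1 + j')) (bb V K s) else 0) +
      (if (i' : ℕ) = 3 ∧ (j' : ℕ) = 6 then
        ∑ l : Oth V, coeff (Finsupp.single (l : τ) 2) (bb V K s) else 0) = _
    have hi' := i'.2
    have hj' := j'.2
    rcases s with ⟨i, j⟩ | k | l
    · have hi := i.2
      have hj := j.2
      show coeff (E V 0 i' j') (mo V K 0 i j) +
        (if (j' : ℕ) = 6 then coeff (E V 0 (5 + i') 0) (mo V K 0 i j) else 0) +
        (if (i' : ℕ) = 3 then coeff (E V 1 0 (1 + j')) (mo V K 0 i j) else 0) +
        (if (i' : ℕ) = 3 ∧ (j' : ℕ) = 6 then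
          ∑ l : Oth V, coeff (Finsupp.single (l : τ) 2) (mo V K 0 i j) else 0) =
        if (Sum.inl (i, j) : Idx V) = Sum.inl (i', j') then 1 else 0
      simp only [coeff_E_mo, coeff_single_mo V two_ne_zero, Finset.sum_const_zero, ite_self,
        add_zero, Sum.inl.injEq, Prod.mk.injEq, true_and]
      rw [if_neg (c := 1 = 0 ∧ _) (by omega), ite_self, add_zero,
        if_neg (c := 5 + (i' : ℕ) = i ∧ _) (by omega), ite_self, add_zero]
      congr 1
      rw [Fin.ext_iff, Fin.ext_iff, eq_iff_iff]
      constructor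
      · rintro ⟨h1, h2⟩; exact ⟨h1.symm, h2.symm⟩
      · rintro ⟨h1, h2⟩; exact ⟨h1.symm, h2.symm⟩
    · rw [if_neg (c := (Sum.inr (Sum.inl k) : Idx V) = Sum.inl (i', j')) (by simp)]
      fin_cases k
      · show coeff (E V 0 i' j') (mo V K 1 0 0) +
          (if (j' : ℕ) = 6 then coeff (E V 0 (5 + i') 0) (mo V K 1 0 0) else 0) +
          (if (i' : ℕ) = 3 then coeff (E V 1 0 (1 + j')) (mo V K 1 0 0) else 0) +
          (if (i' : ℕ) = 3 ∧ (j' : ℕ) = 6 then
            ∑ l : Oth V, coeff (Finsupp.single (l : τ) 2) (mo V K 1 0 0) else 0) = 0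
        simp only [coeff_E_mo, coeff_single_mo V two_ne_zero, Finset.sum_const_zero, ite_self,
          add_zero]
        generalize (i' : ℕ) = A at hi' ⊢
        generalize (j' : ℕ) = B at hj' ⊢
        interval_cases A <;> interval_cases B <;> simp
      · show coeff (E V 0 i' j') (mo V K 0 0 7) +
          (if (j' : ℕ) = 6 then coeff (E V 0 (5 + i') 0) (mo V K 0 0 7) else 0) +
          (if (i' : ℕ) = 3 then coeff (E V 1 0 (1 + j')) (mo V K 0 0 7) else 0) +
          (if (i' : ℕ) = 3 ∧ (j' : ℕ) = 6 then
            ∑ l : Oth V, coeff (Finsupp.single (l : τ) 2) (mo V K 0 0 7) else 0) = 0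
        simp only [coeff_E_mo, coeff_single_mo V two_ne_zero, Finset.sum_const_zero, ite_self,
          add_zero]
        generalize (i' : ℕ) = A at hi' ⊢
        generalize (j' : ℕ) = B at hj' ⊢
        interval_cases A <;> interval_cases B <;> simp
      · show coeff (E V 0 i' j') (mo V K 0 4 0) +
          (if (j' : ℕ) = 6 then coeff (E V 0 (5 + i') 0) (mo V K 0 4 0) else 0) +
          (if (i' : ℕ) = 3 then coeff (E V 1 0 (1 + j')) (mo V K 0 4 0) else 0) +
          (if (i' : ℕ) = 3 ∧ (j' : ℕ) = 6 then
            ∑ l : Oth V, coeff (Finsupp.single (l : τ) 2) (mo V K 0 4 0) else 0) = 0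
        simp only [coeff_E_mo, coeff_single_mo V two_ne_zero, Finset.sum_const_zero, ite_self,
          add_zero]
        generalize (i' : ℕ) = A at hi' ⊢
        generalize (j' : ℕ) = B at hj' ⊢
        interval_cases A <;> interval_cases B <;> simp
      · show coeff (E V 0 i' j') (mo V K 1 0 1 - mo V K 0 3 0) +
          (if (j' : ℕ) = 6 then coeff (E V 0 (5 + i') 0) (mo V K 1 0 1 - mo V K 0 3 0) else 0) +
          (if (i' : ℕ) = 3 then coeff (E V 1 0 (1 + j')) (mo V K 1 0 1 - mo V K 0 3 0) else 0) +
          (if (i' : ℕ) = 3 ∧ (j' : ℕ) = 6 then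
            ∑ l : Oth V, coeff (Finsupp.single (l : τ) 2) (mo V K 1 0 1 - mo V K 0 3 0) else 0) = 0
        simp only [map_sub, coeff_E_mo, coeff_single_mo V two_ne_zero, Finset.sum_const_zero,
          sub_zero, ite_self, add_zero]
        generalize (i' : ℕ) = A at hi' ⊢
        generalize (j' : ℕ) = B at hj' ⊢
        interval_cases A <;> interval_cases B <;> simp
      · show coeff (E V 0 i' j') (mo V K 0 5 0 - mo V K 0 0 6) +
          (if (j' : ℕ) = 6 then coeff (E V 0 (5 + i') 0) (mo V K 0 5 0 - mo V K 0 0 6) else 0) +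
          (if (i' : ℕ) = 3 then coeff (E V 1 0 (1 + j')) (mo V K 0 5 0 - mo V K 0 0 6) else 0) +
          (if (i' : ℕ) = 3 ∧ (j' : ℕ) = 6 then
            ∑ l : Oth V, coeff (Finsupp.single (l : τ) 2) (mo V K 0 5 0 - mo V K 0 0 6) else 0) = 0
        simp only [map_sub, coeff_E_mo, coeff_single_mo V two_ne_zero, Finset.sum_const_zero,
          sub_zero, ite_self, add_zero]
        generalize (i' : ℕ) = A at hi' ⊢
        generalize (j' : ℕ) = B at hj' ⊢
        interval_cases A <;> interval_cases B <;> simp
    · rw [if_neg (c := (Sum.inr (Sum.inr l) : Idx V) = Sum.inl (i', j')) (by simp)]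
      show coeff (E V 0 i' j') (monomial (Finsupp.single (l : τ) 1) (1 : K)) +
          (if (j' : ℕ) = 6 then coeff (E V 0 (5 + i') 0)
            (monomial (Finsupp.single (l : τ) 1) (1 : K)) else 0) +
          (if (i' : ℕ) = 3 then coeff (E V 1 0 (1 + j'))
            (monomial (Finsupp.single (l : τ) 1) (1 : K)) else 0) +
          (if (i' : ℕ) = 3 ∧ (j' : ℕ) = 6 then ∑ l' : Oth V, coeff (Finsupp.single (l' : τ) 2)
            (monomial (Finsupp.single (l : τ) 1) (1 : K)) else 0) = 0
      simp [coeff_E_w V one_ne_zero, coeff_w_w V two_ne_zero]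
  · rcases s with ⟨i, j⟩ | k | l
    · rw [if_neg (by simp)]
      have hi := i.2
      have hj := j.2
      fin_cases k'
      · show coeff (E V 1 0 0) (mo V K 0 i j) = 0
        rw [coeff_E_mo, if_neg (by omega)]
      · show coeff (E V 0 0 7) (mo V K 0 i j) = 0
        rw [coeff_E_mo, if_neg (by omega)]
      · show coeff (E V 0 4 0) (mo V K 0 i j) = 0
        rw [coeff_E_mo, if_neg (by omega)]
      · show - coeff (E V 1 0 1) (mo V K 0 i j) = 0
        rw [coeff_E_mo, if_neg (by omega), neg_zero]
      · show - coeff (E V 0 5 0) (mo V K 0 i j) = 0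
        rw [coeff_E_mo, if_neg (by omega), neg_zero]
    · fin_cases k <;> fin_cases k' <;> simp [ps, bb, ee, coeff_E_mo]
    · rw [if_neg (by simp)]
      fin_cases k' <;> simp [ps, bb, coeff_E_w V one_ne_zero]
  · show coeff (Finsupp.single (l' : τ) 1) (bb V K s) = _
    rcases s with ⟨i, j⟩ | k | l
    · rw [if_neg (by simp)]
      exact coeff_single_mo V one_ne_zero l'
    · rw [if_neg (by simp)]
      fin_cases k <;> simp [bb, coeff_single_mo V one_ne_zero]
    · show coeff (Finsupp.single (l' : τ) 1) (monomial (Finsupp.single (l : τ) 1) (1 : K)) =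
        if (Sum.inr (Sum.inr l) : Idx V) = Sum.inr (Sum.inr l') then 1 else 0
      rw [coeff_w_w V one_ne_zero]
      simp

lemma ps_low {f : MvPowerSeries τ K} {i : ℕ} (hf : ∀ v : τ →₀ ℕ, v.degree < i → coeff v f = 0)
    (s : Idx V) (hs : oo V s < i) : ps V f s = 0 := by
  have hE : ∀ a b c, a + b + c < i → coeff (E V a b c) f = 0 := by
    intro a b c h
    exact hf _ (by rw [E_degree]; exact h)
  have hw : ∀ (l : Oth V) k, k < i → coeff (Finsupp.single (l : τ) k) f = 0 := by
    intro l k h
    exact hf _ (by rw [Finsupp.degree_single]; exact h)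
  rcases s with ⟨a, b⟩ | k | l
  · have hs' : (a : ℕ) + b < i := hs
    show coeff (E V 0 a b) f +
      (if (b : ℕ) = 6 then coeff (E V 0 (5 + a) 0) f else 0) +
      (if (a : ℕ) = 3 then coeff (E V 1 0 (1 + b)) f else 0) +
      (if (a : ℕ) = 3 ∧ (b : ℕ) = 6 then
        ∑ l : Oth V, coeff (Finsupp.single (l : τ) 2) f else 0) = 0
    rw [hE _ _ _ (by omega), zero_add]
    have h1 : (if (b : ℕ) = 6 then coeff (E V 0 (5 + a) 0) f else 0) = 0 := by
      split_ifs with h
      · exact hE _ _ _ (by omega)
      · rfl
    have h2 : (if (a : ℕ) = 3 then coeff (E V 1 0 (1 + b)) f else 0) = 0 := by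
      split_ifs with h
      · exact hE _ _ _ (by omega)
      · rfl
    have h3 : (if (a : ℕ) = 3 ∧ (b : ℕ) = 6 then
        ∑ l : Oth V, coeff (Finsupp.single (l : τ) 2) f else 0) = 0 := by
      split_ifs with h
      · exact Finset.sum_eq_zero fun l _ => hw l 2 (by omega)
      · rfl
    rw [h1, h2, h3]; simp
  · fin_cases k
    · have hs' : 1 < i := hs
      exact hE _ _ _ (by omega)
    · have hs' : 7 < i := hs
      exact hE _ _ _ (by omega)
    · have hs' : 4 < i := hs
      exact hE _ _ _ (by omega)
    · have hs' : 2 < i := hs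
      show - coeff (E V 1 0 1) f = 0
      rw [hE _ _ _ (by omega), neg_zero]
    · have hs' : 5 < i := hs
      show - coeff (E V 0 5 0) f = 0
      rw [hE _ _ _ (by omega), neg_zero]
  · have hs' : 1 < i := hs
    exact hw l 1 hs'

lemma E_of_le {v : τ →₀ ℕ} {a b c : ℕ} (h : v ≤ E V a b c) : v = E V (v V.x) (v V.y) (v V.z) := by
  rw [ext_iff4 V]
  refine ⟨by simp, by simp, by simp, fun l => ?_⟩
  have := h (l : τ)
  rw [E_oth] at this
  rw [E_oth]; omega

/-- `f b_s` killed by `φ` for all `s` implies `f` times every monomial is killed. -/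
lemma kill {f : MvPowerSeries τ K} (h : ∀ s, ps V f s = 0) (v : τ →₀ ℕ) :
    phi V (f * monomial v 1) = 0 := by
  classical
  have hps : ∀ (i j : ℕ) (_ : i < 4) (_ : j < 7), coeff (E V 0 i j) f +
      (if j = 6 then coeff (E V 0 (5 + i) 0) f else 0) +
      (if i = 3 then coeff (E V 1 0 (1 + j)) f else 0) +
      (if i = 3 ∧ j = 6 then ∑ l : Oth V, coeff (Finsupp.single (l : τ) 2) f else 0) = 0 :=
    fun i j hi hj => h (Sum.inl (⟨i, hi⟩, ⟨j, hj⟩))
  have h0 : coeff (E V 1 0 0) f = 0 := h (Sum.inr (Sum.inl 0))
  have h1 : coeff (E V 0 0 7) f = 0 := h (Sum.inr (Sum.inl 1))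
  have h2 : coeff (E V 0 4 0) f = 0 := h (Sum.inr (Sum.inl 2))
  have h3 : coeff (E V 1 0 1) f = 0 := neg_eq_zero.mp (h (Sum.inr (Sum.inl 3)))
  have h4 : coeff (E V 0 5 0) f = 0 := neg_eq_zero.mp (h (Sum.inr (Sum.inl 4)))
  have hw : ∀ l : Oth V, coeff (Finsupp.single (l : τ) 1) f = 0 := fun l => h (Sum.inr (Sum.inr l))
  have hlow : ∀ i j, i < 3 → j < 6 → coeff (E V 0 i j) f = 0 := by
    intro i j hi hj
    have := hps i j (by omega) (by omega)
    rwa [if_neg (by omega), if_neg (by omega), if_neg (by omega), add_zero, add_zero,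
      add_zero] at this
  -- basis monomials
  have hbas : ∀ i j, i < 4 → j < 7 → phi V (f * mo V K 0 i j) = 0 := by
    intro i j hi hj
    have h5 := phi_mul_bb V f (sg V (Sum.inl (⟨i, hi⟩, ⟨j, hj⟩)))
    rw [sg_sg, h] at h5
    exact h5
  by_cases hv : ∃ i, v ≤ tt V i
  · obtain ⟨i, hi⟩ := hv
    rcases i with i | l
    · fin_cases i
      · have hle : v ≤ E V 0 3 6 := hi
        have hv := E_of_le V hle
        rw [hv, E_le] at hle
        have hx : v V.x = 0 := by omega
        rw [hv, hx]
        exact hbas _ _ (by omega) (by omega)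
      · have hle : v ≤ E V 0 8 0 := hi
        have hv := E_of_le V hle
        rw [hv, E_le] at hle
        have hx : v V.x = 0 := by omega
        have hz : v V.z = 0 := by omega
        have hy : v V.y ≤ 8 := hle.2.1
        rw [hv, hx, hz]
        generalize v V.y = b at hy
        by_cases hb : b < 4
        · exact hbas _ _ hb (by omega)
        · have hb4 : 4 ≤ b := by omega
          rw [phi_mul_E, if_neg (by omega), if_pos (by omega), if_neg (by omega),
            if_neg (by omega), zero_add, add_zero, add_zero]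
          interval_cases b
          · exact h2
          · have := hps 3 0 (by omega) (by omega)
            rw [if_neg (by omega), if_pos rfl, if_neg (by omega), h3, add_zero, add_zero,
              add_zero] at this
            exact this
          · exact hlow 2 0 (by omega) (by omega)
          · exact hlow 1 0 (by omega) (by omega)
          · exact hlow 0 0 (by omega) (by omega)
      · have hle : v ≤ E V 1 0 7 := hi
        have hv := E_of_le V hle
        rw [hv, E_le] at hle
        have hy : v V.y = 0 := by omega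
        have hx : v V.x ≤ 1 := hle.1
        have hz : v V.z ≤ 7 := hle.2.2
        rw [hv, hy]
        generalize v V.x = a at hx
        generalize v V.z = c at hz
        interval_cases a
        · by_cases hc : c < 7
          · exact hbas _ _ (by omega) hc
          · have hc7 : c = 7 := by omega
            subst hc7
            rw [phi_mul_E, if_neg (by omega), if_neg (by omega), if_pos (by omega),
              if_neg (by omega), zero_add, add_zero, zero_add]
            exact h0
        · rw [phi_mul_E, if_neg (by omega), if_neg (by omega), if_pos (by omega),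
            if_neg (by omega), zero_add, add_zero, zero_add]
          rcases Nat.lt_or_ge c 2 with hc | hc
          · interval_cases c
            · exact h1
            · have := hps 0 6 (by omega) (by omega)
              rw [if_pos rfl, if_neg (by omega), if_neg (by omega), add_zero, add_zero] at this
              have h5 : coeff (E V 0 (5 + 0) 0) f = 0 := h4
              rw [h5, add_zero] at this
              exact this
          · exact hlow _ _ (by omega) (by omega)
    · have hle : v ≤ Finsupp.single (l : τ) 2 := hi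
      have hv : v = Finsupp.single (l : τ) (v l) := by
        ext a
        have := hle a
        rw [Finsupp.single_apply] at this ⊢
        split_ifs at this ⊢ with h5
        · rw [h5]
        · omega
      have hl : v l ≤ 2 := by
        have := hle (l : τ)
        rwa [Finsupp.single_eq_same] at this
      rw [hv]
      generalize v l = k at hl
      interval_cases k
      · rw [Finsupp.single_zero, ← E_zero V]
        exact hbas 0 0 (by omega) (by omega)
      · rw [phi_mul_w V f l one_ne_zero, if_pos (by omega)]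
        exact hw l
      · rw [phi_mul_w V f l two_ne_zero, if_pos (by omega), Nat.sub_self, Finsupp.single_zero,
          ← E_zero V]
        exact hlow 0 0 (by omega) (by omega)
  · push Not at hv
    rw [phi_eq]
    refine Finset.sum_eq_zero fun i _ => ?_
    rw [coeff_mul_mono, if_neg (hv i)]

end

end Pool.Agent.R832.NU
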