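import Pool.Agent.R832.NU.Ex2

set_option autoImplicit false

open MvPowerSeries

namespace Pool.Agent.R832.NU

section

variable {K : Type*} [Field K] {τ : Type*} [Fintype τ] [DecidableEq τ] (V : Three τ)

/-- The ideal `Ann(F)`. -/
noncomputable def annF (K : Type*) [Field K] : Ideal (MvPowerSeries τ K) where
  carrier := {f | ∀ g, phi V (f * g) = 0}
  zero_mem' := by intro g; rw [zero_mul, map_zero]
  add_mem' := by
    intro f f' hf hf' g
    rw [add_mul, map_add, hf, hf', add_zero]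
  smul_mem' := by
    intro c f hf g
    rw [smul_eq_mul, mul_comm c f, mul_assoc]
    exact hf _

lemma mem_annF {f : MvPowerSeries τ K} : f ∈ annF V K ↔ ∀ g, phi V (f * g) = 0 := Iff.rfl

lemma mem_annF_of_ps {f : MvPowerSeries τ K} (h : ∀ s, ps V f s = 0) : f ∈ annF V K :=
  fun g => functional_kill (tt V) (phi_eq V) (kill V h) g

lemma ps_of_mem {f : MvPowerSeries τ K} (h : f ∈ annF V K) (s : Idx V) : ps V f s = 0 := by
  rw [← phi_mul_bb]; exact h _

/-- the functional on the quotient. -/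
noncomputable def phibar : (MvPowerSeries τ K ⧸ annF V K) →ₗ[K] K :=
  (Submodule.liftQ ((annF V K).restrictScalars K) (phi V) (fun f hf => by
    have h : f ∈ annF V K := hf
    rw [LinearMap.mem_ker]
    have := h 1
    rwa [mul_one] at this)) ∘ₗ
    (Submodule.Quotient.restrictScalarsEquiv K (annF V K)).symm.toLinearMap

lemma phibar_mk (f : MvPowerSeries τ K) : phibar V (Ideal.Quotient.mk (annF V K) f) = phi V f := rfl

/-- the maximal ideal of the quotient. -/
noncomputable abbrev mq (K : Type*) [Field K] : Ideal (MvPowerSeries τ K ⧸ annF V K) :=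
  (IsLocalRing.maximalIdeal (MvPowerSeries τ K)).map (Ideal.Quotient.mk (annF V K))

lemma mo_mem_pow (a b c : ℕ) : mo V K a b c ∈
    (IsLocalRing.maximalIdeal (MvPowerSeries τ K)) ^ (a + b + c) := by
  have := mono_mem (K := K) (E V a b c)
  rwa [E_degree] at this

lemma bb_mem (s : Idx V) : bb V K s ∈ (IsLocalRing.maximalIdeal (MvPowerSeries τ K)) ^ oo V s := by
  rcases s with ⟨i, j⟩ | k | l
  · have := mo_mem_pow (K := K) V 0 i j
    rwa [zero_add] at this
  · fin_cases k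
    · exact mo_mem_pow V 1 0 0
    · exact mo_mem_pow V 0 0 7
    · exact mo_mem_pow V 0 4 0
    · show mo V K 1 0 1 - mo V K 0 3 0 ∈ (IsLocalRing.maximalIdeal (MvPowerSeries τ K)) ^ 2
      exact Ideal.sub_mem _ (mo_mem_pow V 1 0 1)
        (Ideal.pow_le_pow_right (by norm_num) (mo_mem_pow V 0 3 0))
    · show mo V K 0 5 0 - mo V K 0 0 6 ∈ (IsLocalRing.maximalIdeal (MvPowerSeries τ K)) ^ 5
      exact Ideal.sub_mem _ (mo_mem_pow V 0 5 0)
        (Ideal.pow_le_pow_right (by norm_num) (mo_mem_pow V 0 0 6))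
  · have := mono_mem (K := K) (Finsupp.single (l : τ) 1)
    rwa [Finsupp.degree_single] at this

/-- the adapted basis of the quotient. -/
noncomputable def DD (K : Type*) [Field K] : Dual K (mq V K) (Idx V) where
  φ := phibar V
  b s := Ideal.Quotient.mk _ (bb V K s)
  σ := sg V
  o := oo V
  ε := ee V K
  σσ := sg_sg V
  ε0 := ee_ne V
  h1 s t := by
    rw [← map_mul, phibar_mk, phi_mul_bb, ps_bb]
  h2 a h := by
    obtain ⟨f, rfl⟩ := Ideal.Quotient.mk_surjective a
    rw [Ideal.Quotient.eq_zero_iff_mem]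
    apply mem_annF_of_ps
    intro s
    have := h (sg V s)
    rwa [← map_mul, phibar_mk, phi_mul_bb] at this
  h3 s := by
    rw [← Ideal.map_pow]
    exact Ideal.mem_map_of_mem _ (bb_mem V s)
  h4 i a ha s hs := by
    rw [← Ideal.map_pow, Ideal.mem_map_iff_of_surjective _ Ideal.Quotient.mk_surjective] at ha
    obtain ⟨f, hf, rfl⟩ := ha
    rw [← map_mul, phibar_mk, phi_mul_bb]
    exact ps_low V (fun v hv => coeff_eq_zero_of_mem hf hv) s hs

lemma oo_le (s : Idx V) : oo V s ≤ 9 := by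
  rcases s with ⟨i, j⟩ | k | l
  · have hi := i.2
    have hj := j.2
    show (i : ℕ) + j ≤ 9
    omega
  · fin_cases k <;> simp [oo]
  · simp [oo]

lemma sd : socDeg (mq V K) = 9 :=
  (DD V K).socDeg_eq (oo_le V) (s := Sum.inl (3, 6)) rfl

lemma hilb_val (a i : ℕ) : hilb K (mq V K) a i =
    (∑ p : Fin 4 × Fin 7, if (p.1 : ℕ) + p.2 = i ∧
      (Fin.rev p.1 : ℕ) + Fin.rev p.2 + a + i = 9 then 1 else 0) +
    ((∑ k : Fin 5, if (![1, 7, 4, 2, 5] k : ℕ) = i ∧
      (![7, 1, 4, 5, 2] k : ℕ) + a + i = 9 then 1 else 0) +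
    ∑ _l : Oth V, if 1 = i ∧ 1 + a + i = 9 then 1 else 0) := by
  rw [(DD V K).hilb_eq (sd V), Finset.card_filter, Fintype.sum_sum_type, Fintype.sum_sum_type]
  have h1 : ∀ k : Fin 5, (if oo V (Sum.inr (Sum.inl k)) = i ∧
      oo V (sg V (Sum.inr (Sum.inl k))) + a + i = 9 then 1 else 0) =
      if (![1, 7, 4, 2, 5] k : ℕ) = i ∧ (![7, 1, 4, 5, 2] k : ℕ) + a + i = 9 then 1 else 0 := by
    intro k
    fin_cases k <;> rfl
  rw [← Finset.sum_congr rfl fun k _ => h1 k]
  rfl

lemma hilb_val' {a i : ℕ} (ha : a ≤ 1) : hilb K (mq V K) a i =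
    (∑ p : Fin 4 × Fin 7, if (p.1 : ℕ) + p.2 = i ∧
      (Fin.rev p.1 : ℕ) + Fin.rev p.2 + a + i = 9 then 1 else 0) +
    (∑ k : Fin 5, if (![1, 7, 4, 2, 5] k : ℕ) = i ∧
      (![7, 1, 4, 5, 2] k : ℕ) + a + i = 9 then 1 else 0) := by
  rw [hilb_val]
  have h1 : (∑ _l : Oth V, if 1 = i ∧ 1 + a + i = 9 then 1 else 0) = 0 :=
    Finset.sum_eq_zero fun l _ => by rw [if_neg (by omega)]
  rw [h1, add_zero]

lemma annF_ne_top : annF V K ≠ ⊤ := by
  intro h
  have h1 : (1 : MvPowerSeries τ K) ∈ annF V K := by rw [h]; trivial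
  have h2 := h1 (mo V K 0 3 6)
  rw [phi_mul_E] at h2
  norm_num at h2
  rw [E_zero, coeff_zero_one] at h2
  exact one_ne_zero h2

lemma annF_le : annF V K ≤ (IsLocalRing.maximalIdeal (MvPowerSeries τ K)) ^ 2 := by
  intro f hf
  apply mem_sq
  intro v hv
  have hps := ps_of_mem V hf
  have hlow : ∀ i j, i < 3 → j < 6 → coeff (E V 0 i j) f = 0 := by
    intro i j hi hj
    have : coeff (E V 0 i j) f +
      (if j = 6 then coeff (E V 0 (5 + i) 0) f else 0) +
      (if i = 3 then coeff (E V 1 0 (1 + j)) f else 0) +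
      (if i = 3 ∧ j = 6 then ∑ l : Oth V, coeff (Finsupp.single (l : τ) 2) f else 0) = 0 :=
      hps (Sum.inl (⟨i, by omega⟩, ⟨j, by omega⟩))
    rwa [if_neg (by omega), if_neg (by omega), if_neg (by omega), add_zero, add_zero,
      add_zero] at this
  rcases Nat.lt_or_ge v.degree 1 with h | h
  · have h0 : v = 0 := by
      rw [← Finsupp.degree_eq_zero_iff]; omega
    rw [h0, ← E_zero V]
    exact hlow 0 0 (by omega) (by omega)
  · have h1 : v.degree = 1 := by omega
    have h2 : v ≠ 0 := by rintro rfl; simp at h1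
    obtain ⟨a, ha⟩ := Finsupp.ne_iff.mp h2
    have ha' : Finsupp.single a 1 ≤ v := by
      rw [Finsupp.single_le_iff]; exact Nat.one_le_iff_ne_zero.mpr ha
    have h3 : v = Finsupp.single a 1 := by
      have h4 : v - Finsupp.single a 1 = 0 := by
        rw [← Finsupp.degree_eq_zero_iff]
        have h5 : (v - Finsupp.single a 1 + Finsupp.single a 1).degree = v.degree := by
          rw [tsub_add_cancel_of_le ha']
        rw [map_add, Finsupp.degree_single] at h5
        omega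
      rw [← tsub_add_cancel_of_le ha', h4, zero_add]
    rw [h3]
    by_cases hx : a = V.x
    · have h5 : coeff (E V 1 0 0) f = 0 := hps (Sum.inr (Sum.inl 0))
      rw [hx]
      simpa [E] using h5
    by_cases hy : a = V.y
    · have h5 := hlow 1 0 (by omega) (by omega)
      rw [hy]
      simpa [E] using h5
    by_cases hz : a = V.z
    · have h5 := hlow 0 1 (by omega) (by omega)
      rw [hz]
      simpa [E] using h5
    exact hps (Sum.inr (Sum.inr ⟨a, hx, hy, hz⟩))

end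

section Final

variable {K : Type*} [Field K]

/-- the three variables of `Fin r`. -/
def V3 {r : ℕ} (hr : 3 ≤ r) : Three (Fin r) where
  x := ⟨0, by omega⟩
  y := ⟨1, by omega⟩
  z := ⟨2, by omega⟩
  xy := by simp
  xz := by simp
  yz := by simp

lemma mx_nilpotent {s : ℕ} {J : Ideal (MvPowerSeries (Fin s) K)} (hJ : J ≠ ⊤)
    [Module.Finite K (MvPowerSeries (Fin s) K ⧸ J)] : ∃ n, (mx J) ^ n = ⊥ := by
  haveI : Nontrivial (MvPowerSeries (Fin s) K ⧸ J) := Ideal.Quotient.nontrivial_iff.mpr hJ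
  haveI : IsArtinianRing (MvPowerSeries (Fin s) K ⧸ J) :=
    IsArtinianRing.of_finite K (MvPowerSeries (Fin s) K ⧸ J)
  haveI : IsLocalRing (MvPowerSeries (Fin s) K ⧸ J) :=
    IsLocalRing.of_surjective' (Ideal.Quotient.mk J) Ideal.Quotient.mk_surjective
  obtain ⟨n, hn⟩ := IsArtinianRing.isNilpotent_jacobson_bot (R := MvPowerSeries (Fin s) K ⧸ J)
  rw [IsLocalRing.jacobson_eq_maximalIdeal _ bot_ne_top] at hn
  refine ⟨n, ?_⟩
  rw [eq_bot_iff, ← Ideal.zero_eq_bot, ← hn]
  refine Ideal.pow_right_mono ?_ n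
  apply IsLocalRing.le_maximalIdeal
  intro htop
  have h1 : Ideal.comap (Ideal.Quotient.mk J) (mx J) =
      IsLocalRing.maximalIdeal (MvPowerSeries (Fin s) K) :=
    Ideal.comap_map_mk (IsLocalRing.le_maximalIdeal hJ)
  rw [htop, Ideal.comap_top] at h1
  exact (IsLocalRing.maximalIdeal.isMaximal (MvPowerSeries (Fin s) K)).ne_top h1.symm

theorem main {r : ℕ} (hr : 3 ≤ r) : IsAG (annF (V3 hr) K) ∧ NonUbiquitous (annF (V3 hr) K) 1 := by
  set V := V3 hr with hV
  refine ⟨⟨annF_ne_top V, (DD V K).finite, ?_⟩, ?_⟩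
  · refine (DD V K).finrank_socle (s₀ := Sum.inl (3, 6)) ?_
    intro s
    show oo V (sg V s) = 0 ↔ _
    rcases s with ⟨i, j⟩ | k | l
    · have hi := i.2
      have hj := j.2
      show ((Fin.rev i : Fin 4) : ℕ) + (Fin.rev j : Fin 7) = 0 ↔ _
      rw [Fin.val_rev, Fin.val_rev, Sum.inl.injEq, Prod.mk.injEq, Fin.ext_iff, Fin.ext_iff]
      show _ ↔ (i : ℕ) = 3 ∧ (j : ℕ) = 6
      omega
    · have h : (Sum.inr (Sum.inl k) : Idx V) ≠ Sum.inl (3, 6) := by simp
      simp only [h, iff_false]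
      fin_cases k <;> simp [oo, sg]
    · have h : (Sum.inr (Sum.inr l) : Idx V) ≠ Sum.inl (3, 6) := by simp
      simp only [h, iff_false]
      simp [oo, sg]
  · rintro ⟨s, J, ⟨hJ1, hJ2, hJ3⟩, hle, hgt⟩
    haveI := hJ2
    haveI : Nontrivial (MvPowerSeries (Fin s) K ⧸ J) := Ideal.Quotient.nontrivial_iff.mpr hJ1
    obtain ⟨n, hn⟩ := mx_nilpotent (K := K) hJ1
    have hval : ∀ u ≤ 1, ∀ i, hilb K (mx J) u i =
        (∑ p : Fin 4 × Fin 7, if (p.1 : ℕ) + p.2 = i ∧
          (Fin.rev p.1 : ℕ) + Fin.rev p.2 + u + i = 9 then 1 else 0) +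
        (∑ k : Fin 5, if (![1, 7, 4, 2, 5] k : ℕ) = i ∧
          (![7, 1, 4, 5, 2] k : ℕ) + u + i = 9 then 1 else 0) := by
      intro u hu i
      rw [hle u hu i]
      exact hilb_val' V hu
    refine no_B (K := K) (m := mx J) hn ?_ ?_ ?_ ?_ ?_ ?_ ?_ ?_ ?_
    · intro i hi
      rw [hval 0 (by omega)]
      have e1 : ∀ p : Fin 4 × Fin 7, (if (p.1 : ℕ) + p.2 = i ∧
          (Fin.rev p.1 : ℕ) + Fin.rev p.2 + 0 + i = 9 then 1 else 0) = 0 := fun p => by
        rw [if_neg (by omega)]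
      have e2 : ∀ k : Fin 5, (if (![1, 7, 4, 2, 5] k : ℕ) = i ∧
          (![7, 1, 4, 5, 2] k : ℕ) + 0 + i = 9 then 1 else 0) = 0 := fun k => by
        rw [if_neg (by omega)]
      rw [Finset.sum_eq_zero fun p _ => e1 p, Finset.sum_eq_zero fun k _ => e2 k]
      rfl
    · rw [hval 0 (by omega)]; decide
    · rw [hval 0 (by omega), hval 1 (by omega)]; decide
    · rw [hval 0 (by omega), hval 1 (by omega)]; decide
    · rw [hval 1 (by omega)]; decide
    · rw [hval 1 (by omega)]; decide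
    · rw [hval 1 (by omega)]; decide
    · rw [hval 1 (by omega)]; decide
    · intro u hu i
      exact hgt u (by omega) i

end Final

end Pool.Agent.R832.NU
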