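import Pool.Agent.R832.NU.Defs

set_option autoImplicit false

open Polynomial

namespace Pool.Agent.R832.NU

section Ev

variable {K B : Type*} [Field K] [CommRing B] [Algebra K B]

/-- `ev y z i f = Σ f_k y^k z^(i-k)`. -/
noncomputable def ev (y z : B) (i : ℕ) : K[X] →ₗ[K] B :=
  (MvPolynomial.aeval ![y, z]).toLinearMap ∘ₗ homogenizeLM i

lemma ev_apply (y z : B) (i : ℕ) (f : K[X]) :
    ev y z i f = MvPolynomial.aeval ![y, z] (homogenize f i) := rfl

lemma ev_mul (y z : B) {i j : ℕ} {f g : K[X]} (hf : f.natDegree ≤ i) (hg : g.natDegree ≤ j) :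
    ev y z (i + j) (f * g) = ev y z i f * ev y z j g := by
  rw [ev_apply, ev_apply, ev_apply, homogenize_mul _ _ hf hg, map_mul]

lemma ev_one (y z : B) (i : ℕ) : ev (K := K) y z i 1 = z ^ i := by
  rw [ev_apply, homogenize_one]; simp

lemma ev_X (y z : B) {i : ℕ} (hi : i ≠ 0) : ev (K := K) y z i X = y * z ^ (i - 1) := by
  rw [ev_apply, homogenize_X hi]; simp

lemma ev_eq_sum (y z : B) (i : ℕ) (f : K[X]) :
    ev y z i f = ∑ kl ∈ Finset.HasAntidiagonal.antidiagonal i, f.coeff kl.1 • (y ^ kl.1 * z ^ kl.2) := by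
  rw [ev_apply, homogenize, map_sum]
  refine Finset.sum_congr rfl fun kl _ => ?_
  rw [MvPolynomial.aeval_monomial, Algebra.smul_def]
  congr 1
  rw [Finsupp.update_eq_add_single (by simp), Finsupp.prod_add_index' (by simp) (by
    intro a b c; rw [pow_add])]
  simp

lemma ev_mem {m : Ideal B} {y z : B} (hy : y ∈ m) (hz : z ∈ m) (i : ℕ) (f : K[X]) :
    ev y z i f ∈ m ^ i := by
  rw [ev_eq_sum]
  refine Ideal.sum_mem _ fun kl hkl => ?_
  rw [Finset.HasAntidiagonal.mem_antidiagonal] at hkl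
  rw [Algebra.smul_def, ← hkl, pow_add]
  exact Ideal.mul_mem_left _ _ (Ideal.mul_mem_mul (Ideal.pow_mem_pow hy _) (Ideal.pow_mem_pow hz _))

/-- if `c y` and `c z` lie in `m ^ 7`, then `c * ev y z 4 f ∈ m ^ 10`. -/
lemma mul_ev_mem {m : Ideal B} {y z c : B} (hy : y ∈ m) (hz : z ∈ m) (hcy : c * y ∈ m ^ 7)
    (hcz : c * z ∈ m ^ 7) (f : K[X]) : c * ev y z 4 f ∈ m ^ 10 := by
  rw [ev_eq_sum, Finset.mul_sum]
  refine Ideal.sum_mem _ fun kl hkl => ?_
  rw [Finset.HasAntidiagonal.mem_antidiagonal] at hkl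
  rw [Algebra.smul_def, mul_left_comm]
  refine Ideal.mul_mem_left _ _ ?_
  obtain ⟨k, l⟩ := kl
  dsimp only at hkl ⊢
  rcases Nat.eq_zero_or_pos k with hk | hk
  · subst hk
    have hl : l = 3 + 1 := by omega
    subst hl
    rw [pow_zero, one_mul, pow_succ' z, ← mul_assoc, show 10 = 7 + 3 from rfl, pow_add]
    exact Ideal.mul_mem_mul hcz (Ideal.pow_mem_pow hz 3)
  · obtain ⟨k, rfl⟩ := Nat.exists_eq_succ_of_ne_zero hk.ne'
    rw [Nat.succ_eq_add_one, pow_succ' y, mul_assoc, ← mul_assoc c, show 10 = 7 + (k + l) by omega,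
      pow_add, pow_add]
    exact Ideal.mul_mem_mul hcy (Ideal.mul_mem_mul (Ideal.pow_mem_pow hy k) (Ideal.pow_mem_pow hz l))

end Ev

section NoB

variable {K B : Type*} [Field K] [CommRing B] [Algebra K B] {m : Ideal B}

lemma x_mul_mem {x : B} (hxm : ∀ u ∈ m, x * u ∈ m ^ 3) {i : ℕ} (hi : 1 ≤ i) {u : B}
    (hu : u ∈ m ^ i) : x * u ∈ m ^ (i + 2) := by
  obtain ⟨i, rfl⟩ := Nat.exists_eq_add_of_le' hi
  clear hi
  induction i generalizing u with
  | zero => rw [zero_add, pow_one] at hu; exact hxm u hu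
  | succ i ih =>
    rw [pow_succ] at hu
    refine Submodule.mul_induction_on hu ?_ ?_
    · intro a ha b hb
      rw [← mul_assoc, show i + 1 + 1 + 2 = (i + 1 + 2) + 1 by ring, pow_succ]
      exact Ideal.mul_mem_mul (ih ha) hb
    · intro a b ha hb
      rw [mul_add]
      exact Ideal.add_mem _ ha hb

/-- step: from degree `i` to degree `i + 1`. -/
lemma ev_step {x y z : B} (hy : y ∈ m) (hz : z ∈ m) (hxm : ∀ u ∈ m, x * u ∈ m ^ 3)
    (hgen : ∀ u ∈ m, ∃ (α : K) (f : K[X]), f.natDegree ≤ 1 ∧ u - (α • x + ev y z 1 f) ∈ m ^ 2)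
    {i : ℕ} (hi : 1 ≤ i)
    (hS : ∀ u ∈ m ^ i, ∃ f : K[X], f.natDegree ≤ i ∧ ∀ v ∈ m, (u - ev y z i f) * v ∈ m ^ (i + 2))
    {u : B} (hu : u ∈ m ^ (i + 1)) :
    ∃ f : K[X], f.natDegree ≤ i + 1 ∧ u - ev y z (i + 1) f ∈ m ^ (i + 2) := by
  rw [pow_succ] at hu
  refine Submodule.mul_induction_on hu ?_ ?_
  · intro a ha b hb
    obtain ⟨f, hf, hfa⟩ := hS a ha
    obtain ⟨α, g, hg, hgb⟩ := hgen b hb
    refine ⟨f * g, natDegree_mul_le.trans (add_le_add hf hg), ?_⟩
    rw [ev_mul y z hf hg]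
    have h1 : ev y z i f ∈ m ^ i := ev_mem hy hz i f
    have e1 : a * b - ev y z i f * ev y z 1 g = (a - ev y z i f) * b +
        ev y z i f * (b - (α • x + ev y z 1 g)) + α • (x * ev y z i f) := by
      rw [Algebra.smul_def, Algebra.smul_def]; ring
    rw [e1]
    refine Ideal.add_mem _ (Ideal.add_mem _ (hfa b hb) ?_) ?_
    · rw [pow_add]; exact Ideal.mul_mem_mul h1 hgb
    · rw [Algebra.smul_def]
      exact Ideal.mul_mem_left _ _ (x_mul_mem hxm hi h1)
  · rintro a b ⟨f, hf, hfa⟩ ⟨g, hg, hgb⟩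
    refine ⟨f + g, (natDegree_add_le _ _).trans (max_le hf hg), ?_⟩
    rw [map_add]
    have : a + b - (ev y z (i + 1) f + ev y z (i + 1) g) =
      (a - ev y z (i + 1) f) + (b - ev y z (i + 1) g) := by ring
    rw [this]
    exact Ideal.add_mem _ hfa hgb

lemma exists_ev {x y z : B} (hy : y ∈ m) (hz : z ∈ m) (hxm : ∀ u ∈ m, x * u ∈ m ^ 3)
    (hgen : ∀ u ∈ m, ∃ (α : K) (f : K[X]), f.natDegree ≤ 1 ∧ u - (α • x + ev y z 1 f) ∈ m ^ 2)
    {i : ℕ} (hi : 2 ≤ i) {u : B} (hu : u ∈ m ^ i) :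
    ∃ f : K[X], f.natDegree ≤ i ∧ u - ev y z i f ∈ m ^ (i + 1) := by
  obtain ⟨i, rfl⟩ := Nat.exists_eq_add_of_le' hi
  clear hi
  induction i generalizing u with
  | zero =>
    refine ev_step (i := 1) hy hz hxm hgen le_rfl ?_ hu
    intro u hu
    rw [pow_one] at hu
    obtain ⟨α, g, hg, hgb⟩ := hgen u hu
    refine ⟨g, hg, fun v hv => ?_⟩
    have e1 : (u - ev y z 1 g) * v = (u - (α • x + ev y z 1 g)) * v + α • (x * v) := by
      rw [Algebra.smul_def, Algebra.smul_def]; ring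
    rw [e1]
    refine Ideal.add_mem _ ?_ ?_
    · rw [show 1 + 2 = 2 + 1 from rfl, pow_succ]; exact Ideal.mul_mem_mul hgb hv
    · rw [Algebra.smul_def]
      exact Ideal.mul_mem_left _ _ (hxm v hv)
  | succ i ih =>
    refine ev_step (i := i + 2) hy hz hxm hgen (by omega) ?_ hu
    intro u hu
    obtain ⟨f, hf, hfu⟩ := ih hu
    refine ⟨f, hf, fun v hv => ?_⟩
    rw [show i + 2 + 2 = (i + 2 + 1) + 1 by ring, pow_succ]
    exact Ideal.mul_mem_mul hfu hv

/-- The linear algebra: the kernel of `ev 7` modulo `m ^ 8` is `p * (polynomials of degree ≤ 3)`. -/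
lemma kernel_ev {y z c : B} (hy : y ∈ m) (hz : z ∈ m)
    {p : K[X]} (hp : p.natDegree ≤ 4) (hp0 : p ≠ 0) (hcp : c - ev y z 4 p ∈ m ^ 5)
    (hcm : ∀ u ∈ m, c * u ∈ m ^ 6)
    (hev : ∀ u ∈ m ^ 7, ∃ f : K[X], f.natDegree ≤ 7 ∧ u - ev y z 7 f ∈ m ^ 8)
    (h7 : Module.finrank K (((m ^ 7).restrictScalars K).map
      (Ideal.Quotient.mkₐ K (m ^ 8)).toLinearMap) = 4)
    {g : K[X]} (hg : g.natDegree ≤ 7) (hgm : ev y z 7 g ∈ m ^ 8) :
    ∃ r : K[X], r.natDegree ≤ 3 ∧ g = p * r := by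
  classical
  set L : K[X] →ₗ[K] B ⧸ m ^ 8 := (Ideal.Quotient.mkₐ K (m ^ 8)).toLinearMap ∘ₗ ev y z 7 with hL
  have hLz : ∀ f, L f = 0 ↔ ev y z 7 f ∈ m ^ 8 := by
    intro f
    show Ideal.Quotient.mk (m ^ 8) (ev y z 7 f) = 0 ↔ _
    rw [Ideal.Quotient.eq_zero_iff_mem]
  -- the multiples of `p`
  have hmul : ∀ r : K[X], r.natDegree ≤ 3 → ev y z 7 (p * r) ∈ m ^ 8 := by
    intro r hr
    rw [show 7 = 4 + 3 from rfl, ev_mul y z hp hr]
    have e1 : ev y z 4 p * ev y z 3 r = c * ev y z 3 r - (c - ev y z 4 p) * ev y z 3 r := by ring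
    rw [e1]
    have h3 : ev y z 3 r ∈ m ^ 3 := ev_mem hy hz 3 r
    refine Ideal.sub_mem _ ?_ ?_
    · have : ∀ u ∈ m ^ 3, c * u ∈ m ^ 8 := by
        intro u hu
        rw [show 3 = 1 + 2 from rfl, pow_add, pow_one] at hu
        refine Submodule.mul_induction_on hu ?_ ?_
        · intro a ha b hb
          rw [← mul_assoc, show 8 = 6 + 2 from rfl, pow_add]
          exact Ideal.mul_mem_mul (hcm a ha) hb
        · intro a b ha hb
          rw [mul_add]; exact Ideal.add_mem _ ha hb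
      exact this _ h3
    · rw [show 8 = 5 + 3 from rfl, pow_add]
      exact Ideal.mul_mem_mul hcp h3
  set V : Submodule K K[X] := degreeLT K 8 with hV
  have hVfin : Module.finrank K V = 8 := by
    rw [(degreeLTEquiv K 8).finrank_eq]; simp
  haveI : Module.Finite K V := Module.Finite.equiv (degreeLTEquiv K 8).symm
  set L' : V →ₗ[K] B ⧸ m ^ 8 := L.domRestrict V with hL'
  have hrange : LinearMap.range L' = ((m ^ 7).restrictScalars K).map
      (Ideal.Quotient.mkₐ K (m ^ 8)).toLinearMap := by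
    ext w
    constructor
    · rintro ⟨f, rfl⟩
      exact ⟨ev y z 7 f.1, ev_mem hy hz 7 f.1, rfl⟩
    · rintro ⟨u, hu, rfl⟩
      obtain ⟨f, hf, hfu⟩ := hev u hu
      refine ⟨⟨f, ?_⟩, ?_⟩
      · rw [hV, mem_degreeLT]
        refine lt_of_le_of_lt degree_le_natDegree ?_
        exact_mod_cast Nat.lt_succ_of_le hf
      · show Ideal.Quotient.mk (m ^ 8) (ev y z 7 f) = Ideal.Quotient.mk (m ^ 8) u
        rw [eq_comm, Ideal.Quotient.eq]
        exact hfu
  have hker : Module.finrank K (LinearMap.ker L') = 4 := by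
    have := LinearMap.finrank_range_add_finrank_ker L'
    rw [hrange, h7, hVfin] at this
    omega
  -- the map `r ↦ p * r`
  haveI : Module.Finite K (degreeLT K 4) := Module.Finite.equiv (degreeLTEquiv K 4).symm
  have hmem4 : ∀ r : degreeLT K 4, (r : K[X]).natDegree ≤ 3 := by
    intro r
    have := mem_degreeLT.mp r.2
    rcases eq_or_ne (r : K[X]) 0 with h0 | h0
    · rw [h0]; simp
    · rw [degree_eq_natDegree h0] at this
      have : (r : K[X]).natDegree < 4 := by exact_mod_cast this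
      omega
  set M : degreeLT K 4 →ₗ[K] LinearMap.ker L' :=
    LinearMap.codRestrict (LinearMap.ker L') (LinearMap.codRestrict V
      ((LinearMap.mulLeft K p).domRestrict (degreeLT K 4)) (by
        intro r
        rw [hV, mem_degreeLT]
        refine lt_of_le_of_lt degree_le_natDegree ?_
        show ((p * (r : K[X])).natDegree : WithBot ℕ) < _
        have h1 : (p * (r : K[X])).natDegree ≤ 4 + 3 :=
          natDegree_mul_le.trans (add_le_add hp (hmem4 r))
        exact_mod_cast Nat.lt_succ_of_le h1)) (by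
        intro r
        rw [LinearMap.mem_ker]
        exact (hLz _).mpr (hmul _ (hmem4 r))) with hM
  have hMinj : Function.Injective M := by
    intro r s h
    have h1 : p * (r : K[X]) = p * (s : K[X]) := by
      have := congrArg (fun t : LinearMap.ker L' => ((t : V) : K[X])) h
      exact this
    exact Subtype.ext (mul_left_cancel₀ hp0 h1)
  have hMsurj : Function.Surjective M := by
    have h4 : Module.finrank K (degreeLT K 4) = 4 := by
      rw [(degreeLTEquiv K 4).finrank_eq]; simp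
    have h44 : Module.finrank K (degreeLT K 4) = Module.finrank K (LinearMap.ker L') :=
      h4.trans hker.symm
    have h45 := LinearMap.injective_iff_surjective_of_finrank_eq_finrank (K := K)
      (V := degreeLT K 4) (V₂ := LinearMap.ker L') h44 (f := M)
    exact h45.mp hMinj
  have hgV : g ∈ V := by
    rw [hV, mem_degreeLT]
    refine lt_of_le_of_lt degree_le_natDegree ?_
    exact_mod_cast Nat.lt_succ_of_le hg
  obtain ⟨r, hr⟩ := hMsurj ⟨⟨g, hgV⟩, by rw [LinearMap.mem_ker]; exact (hLz _).mpr hgm⟩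
  refine ⟨r, hmem4 r, ?_⟩
  have := congrArg (fun t : LinearMap.ker L' => ((t : V) : K[X])) hr
  exact this.symm

/-- The main contradiction, once `m = (x, y, z) + m ^ 2`. -/
theorem main_contra (hnil : m ^ 10 = ⊥) {x y z : B} (hx : x ∈ m) (hy : y ∈ m) (hz : z ∈ m)
    (hx8 : ∀ u ∈ m ^ 8, x * u = 0)
    (hF2 : ∀ u ∈ m ^ 2, (∀ v ∈ m ^ 7, u * v = 0) → u ∈ m ^ 3)
    (hgen : ∀ u ∈ m, ∃ (α : K) (f : K[X]), f.natDegree ≤ 1 ∧ u - (α • x + ev y z 1 f) ∈ m ^ 2)
    {c : B} (hc : c ∈ m ^ 4) (hc5 : c ∉ m ^ 5) (hcm : ∀ u ∈ m ^ 5, c * u = 0)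
    (hF4 : ∀ u ∈ m ^ 5, (∀ v ∈ m ^ 4, u * v = 0) → u ∈ m ^ 6)
    (hF5 : ∀ u ∈ m ^ 4, (∀ v ∈ m ^ 4, u * v = 0) → u ∈ m ^ 5)
    (h7 : Module.finrank K (((m ^ 7).restrictScalars K).map
      (Ideal.Quotient.mkₐ K (m ^ 8)).toLinearMap) = 4) : False := by
  have hxm : ∀ u ∈ m, x * u ∈ m ^ 3 := by
    intro u hu
    refine hF2 _ ?_ ?_
    · rw [pow_two]; exact Ideal.mul_mem_mul hx hu
    · intro v hv
      rw [mul_assoc]
      refine hx8 _ ?_
      rw [show 8 = 1 + 7 from rfl, pow_add, pow_one]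
      exact Ideal.mul_mem_mul hu hv
  have hev : ∀ i, 2 ≤ i → ∀ u ∈ m ^ i, ∃ f : K[X], f.natDegree ≤ i ∧ u - ev y z i f ∈ m ^ (i + 1) :=
    fun i hi u hu => exists_ev hy hz hxm hgen hi hu
  have hcm6 : ∀ u ∈ m, c * u ∈ m ^ 6 := by
    intro u hu
    refine hF4 _ ?_ ?_
    · rw [pow_succ]; exact Ideal.mul_mem_mul hc hu
    · intro v hv
      rw [mul_assoc]
      refine hcm _ ?_
      rw [show 5 = 1 + 4 from rfl, pow_add, pow_one]
      exact Ideal.mul_mem_mul hu hv
  obtain ⟨p, hp, hcp⟩ := hev 4 (by norm_num) c hc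
  have hp0 : p ≠ 0 := by
    rintro rfl
    rw [map_zero, sub_zero] at hcp
    exact hc5 hcp
  have hcy : c * y ∈ m ^ 6 := hcm6 y hy
  have hcz : c * z ∈ m ^ 6 := hcm6 z hz
  obtain ⟨P, hP, hPy⟩ := hev 6 (by norm_num) _ hcy
  obtain ⟨Q, hQ, hQz⟩ := hev 6 (by norm_num) _ hcz
  have hker := fun g hg hgm => kernel_ev (K := K) hy hz hp hp0 hcp hcm6 (hev 7 (by norm_num)) h7
    (g := g) hg hgm
  -- `P - X * Q` is in the kernel
  have hPQ : ∃ r : K[X], r.natDegree ≤ 3 ∧ P - Q * X = p * r := by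
    refine hker _ ?_ ?_
    · refine (natDegree_sub_le _ _).trans (max_le (hP.trans (by norm_num)) ?_)
      exact natDegree_mul_le.trans (add_le_add hQ natDegree_X_le)
    · rw [map_sub, show 7 = 6 + 1 from rfl, ev_mul y z hQ natDegree_X_le, ev_X y z one_ne_zero]
      have h1 : ev y z (6 + 1) P = ev y z 6 P * z := by
        rw [← mul_one P, ev_mul y z hP (by simp), ev_one, pow_one, mul_one]
      rw [h1]
      have e1 : ev y z 6 P * z - ev y z 6 Q * (y * z ^ (1 - 1)) =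
        (c * z - ev y z 6 Q) * y - (c * y - ev y z 6 P) * z := by
        rw [Nat.sub_self, pow_zero]; ring
      rw [e1, show 8 = 7 + 1 from rfl, pow_succ]
      exact Ideal.sub_mem _ (Ideal.mul_mem_mul hQz hy) (Ideal.mul_mem_mul hPy hz)
  obtain ⟨r, hr, hrPQ⟩ := hPQ
  -- write `r = C a - X * b`
  set a : K := r.coeff 0 with ha
  set b : K[X] := -r.divX with hb
  have hrab : r = C a - b * X := by
    rw [hb, neg_mul, sub_neg_eq_add, add_comm]
    exact (divX_mul_X_add r).symm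
  have hbdeg : b.natDegree ≤ 2 := by
    rw [hb, natDegree_neg, natDegree_divX_eq_natDegree_tsub_one]; omega
  set N : K[X] := Q - p * b with hN
  have hPN : P - p * C a = N * X := by
    have : P = Q * X + p * r := by rw [← hrPQ]; ring
    rw [this, hN]
    conv_lhs => rw [hrab]
    ring
  have hPNdeg : (P - p * C a).natDegree ≤ 6 := by
    refine (natDegree_sub_le _ _).trans (max_le hP ?_)
    refine natDegree_mul_le.trans ?_
    rw [natDegree_C]; omega
  have hNdeg : N.natDegree ≤ 5 := by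
    rcases eq_or_ne N 0 with h0 | h0
    · rw [h0]; simp
    · rw [hPN, natDegree_mul_X h0] at hPNdeg
      omega
  set c' : B := c - ev y z 5 N with hc'
  have hN5 : ev y z 5 N ∈ m ^ 5 := ev_mem hy hz 5 N
  -- `c' y ∈ m ^ 7`
  have hc'y : c' * y ∈ m ^ 7 := by
    have h1 : ev y z 5 N * y = ev y z 6 (P - p * C a) := by
      rw [hPN, show 6 = 5 + 1 from rfl, ev_mul y z hNdeg natDegree_X_le, ev_X y z one_ne_zero,
        Nat.sub_self, pow_zero, mul_one]
    have h2 : ev y z 6 (p * C a) = ev y z 4 p * ev y z 2 (C a) := by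
      rw [show 6 = 4 + 2 from rfl, ev_mul y z hp (by rw [natDegree_C]; omega)]
    have e1 : c' * y = (c * y - ev y z 6 P) + c * ev y z 2 (C a) -
        (c - ev y z 4 p) * ev y z 2 (C a) := by
      rw [hc', sub_mul, h1, map_sub, h2]; ring
    rw [e1]
    have h3 : ev y z 2 (C a) ∈ m ^ 2 := ev_mem hy hz 2 _
    refine Ideal.sub_mem _ (Ideal.add_mem _ hPy ?_) ?_
    · rw [pow_two] at h3
      refine Submodule.mul_induction_on h3 ?_ ?_
      · intro a ha b hb
        rw [← mul_assoc, pow_succ]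
        exact Ideal.mul_mem_mul (hcm6 a ha) hb
      · intro a b ha hb
        rw [mul_add]; exact Ideal.add_mem _ ha hb
    · rw [show 7 = 5 + 2 from rfl, pow_add]
      exact Ideal.mul_mem_mul hcp h3
  have hc'z : c' * z ∈ m ^ 7 := by
    have h1 : ev y z 5 N * z = ev y z 6 N := by
      rw [← mul_one N, show 6 = 5 + 1 from rfl, ev_mul y z hNdeg (by simp), ev_one, pow_one,
        mul_one]
    have h2 : ev y z 6 (p * b) = ev y z 4 p * ev y z 2 b := by
      rw [show 6 = 4 + 2 from rfl, ev_mul y z hp hbdeg]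
    have e1 : c' * z = (c * z - ev y z 6 Q) + c * ev y z 2 b -
        (c - ev y z 4 p) * ev y z 2 b := by
      rw [hc', sub_mul, h1, hN, map_sub, h2]; ring
    rw [e1]
    have h3 : ev y z 2 b ∈ m ^ 2 := ev_mem hy hz 2 _
    refine Ideal.sub_mem _ (Ideal.add_mem _ hQz ?_) ?_
    · rw [pow_two] at h3
      refine Submodule.mul_induction_on h3 ?_ ?_
      · intro a ha b hb
        rw [← mul_assoc, pow_succ]
        exact Ideal.mul_mem_mul (hcm6 a ha) hb
      · intro a b ha hb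
        rw [mul_add]; exact Ideal.add_mem _ ha hb
    · rw [show 7 = 5 + 2 from rfl, pow_add]
      exact Ideal.mul_mem_mul hcp h3
  -- `c' m ^ 4 = 0`
  have hc'4 : ∀ v ∈ m ^ 4, c' * v = 0 := by
    intro v hv
    obtain ⟨f, hf, hfv⟩ := hev 4 (by norm_num) v hv
    have e1 : c' * v = c' * ev y z 4 f + c * (v - ev y z 4 f) - ev y z 5 N * (v - ev y z 4 f) := by
      rw [hc']; ring
    have h1 : c' * ev y z 4 f ∈ m ^ 10 := mul_ev_mem hy hz hc'y hc'z f
    have h2 : ev y z 5 N * (v - ev y z 4 f) ∈ m ^ 10 := by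
      rw [show 10 = 5 + 5 from rfl, pow_add]
      exact Ideal.mul_mem_mul hN5 hfv
    rw [hnil, Ideal.mem_bot] at h1 h2
    rw [e1, h1, h2, hcm _ hfv]
    ring
  have hc'm4 : c' ∈ m ^ 4 := Ideal.sub_mem _ hc (Ideal.pow_le_pow_right (by norm_num) hN5)
  have hc'5 := hF5 c' hc'm4 hc'4
  apply hc5
  have : c = c' + ev y z 5 N := by rw [hc']; ring
  rw [this]
  exact Ideal.add_mem _ hc'5 hN5

end NoB

end Pool.Agent.R832.NU
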