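import Pool.Agent.R832.NU.Dual

set_option autoImplicit false

open MvPowerSeries

namespace Pool.Agent.R832.NU

variable {K : Type*} [Field K] {τ : Type*}

/-- the order filtration. -/
noncomputable def ordIdeal (K : Type*) [Field K] (τ : Type*) (i : ℕ) :
    Ideal (MvPowerSeries τ K) where
  carrier := {f | (i : ℕ∞) ≤ order f}
  zero_mem' := by simp
  add_mem' := fun {f g} hf hg => (le_min hf hg).trans (min_order_le_add)
  smul_mem' := fun c f hf => by
    show (i : ℕ∞) ≤ order (c • f)
    rw [smul_eq_mul]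
    exact (le_add_left hf).trans (le_order_mul)

lemma mem_max_iff {f : MvPowerSeries τ K} :
    f ∈ IsLocalRing.maximalIdeal (MvPowerSeries τ K) ↔ constantCoeff f = 0 := by
  rw [IsLocalRing.mem_maximalIdeal, mem_nonunits_iff, isUnit_iff_constantCoeff,
    isUnit_iff_ne_zero, not_not]

lemma mPow_le_ordIdeal (i : ℕ) :
    (IsLocalRing.maximalIdeal (MvPowerSeries τ K)) ^ i ≤ ordIdeal K τ i := by
  induction i with
  | zero => intro f _; show ((0 : ℕ) : ℕ∞) ≤ _; simp
  | succ i ih =>
    rw [pow_succ, Ideal.mul_le]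
    intro f hf g hg
    have h1 : (i : ℕ∞) ≤ order f := ih hf
    have h2 : ((1 : ℕ) : ℕ∞) ≤ order g := by
      rw [mem_max_iff] at hg
      rw [Nat.cast_one, Order.one_le_iff_ne_zero]
      exact order_ne_zero_iff_constCoeff_eq_zero.mpr hg
    show ((i + 1 : ℕ) : ℕ∞) ≤ _
    rw [Nat.cast_add]
    exact (add_le_add h1 h2).trans le_order_mul

lemma coeff_eq_zero_of_mem {i : ℕ} {f : MvPowerSeries τ K}
    (hf : f ∈ (IsLocalRing.maximalIdeal (MvPowerSeries τ K)) ^ i)
    {m : τ →₀ ℕ} (hm : m.degree < i) : coeff m f = 0 := by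
  apply coeff_of_lt_order
  have : (i : ℕ∞) ≤ order f := mPow_le_ordIdeal i hf
  exact lt_of_lt_of_le (by exact_mod_cast hm) this

lemma X_mem (a : τ) : (X a : MvPowerSeries τ K) ∈
    IsLocalRing.maximalIdeal (MvPowerSeries τ K) := by
  rw [mem_max_iff]; simp

lemma mono_mem (m : τ →₀ ℕ) :
    (monomial m (1 : K)) ∈ (IsLocalRing.maximalIdeal (MvPowerSeries τ K)) ^ m.degree := by
  classical
  induction m using Finsupp.induction with
  | zero => simp
  | single_add a n f _ _ ih =>
    have h1 : monomial (Finsupp.single a n) (1 : K) = (X a) ^ n := (X_pow_eq a n).symm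
    have h2 : monomial (Finsupp.single a n + f) (1 : K) =
        monomial (Finsupp.single a n) (1 : K) * monomial f 1 := by
      rw [monomial_mul_monomial, one_mul]
    rw [h2, h1, map_add, Finsupp.degree_single, pow_add]
    exact Ideal.mul_mem_mul (Ideal.pow_mem_pow (X_mem a) n) ih

open Classical in
/-- A power series supported on the multiples of finitely many monomials in `I` lies in `I`. -/
lemma mem_of_support (I : Ideal (MvPowerSeries τ K)) (G : List (τ →₀ ℕ)) :
    (∀ n ∈ G, (monomial n (1 : K)) ∈ I) → ∀ f : MvPowerSeries τ K,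
      (∀ m, (∀ n ∈ G, ¬ n ≤ m) → coeff m f = 0) → f ∈ I := by
  induction G with
  | nil =>
    intro _ f hf
    have : f = 0 := by ext m; simpa using hf m (by simp)
    rw [this]; exact I.zero_mem
  | cons n G ih =>
    intro hG f hf
    set g : MvPowerSeries τ K := fun m => coeff (n + m) f with hg
    have h1 : monomial n (1 : K) * g ∈ I := I.mul_mem_right _ (hG n (by simp))
    have h2 : f - monomial n (1 : K) * g ∈ I := by
      apply ih (fun m hm => hG m (List.mem_cons_of_mem _ hm))
      intro m hm
      rw [map_sub, coeff_monomial_mul]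
      split_ifs with hnm
      · have : coeff (m - n) g = coeff (n + (m - n)) f := rfl
        rw [this, add_tsub_cancel_of_le hnm, one_mul, sub_self]
      · rw [sub_zero]
        apply hf
        intro n' hn'
        rcases List.mem_cons.mp hn' with rfl | h
        · exact hnm
        · exact hm n' h
    have := I.add_mem h2 h1
    rwa [sub_add_cancel] at this

lemma exists_le_of_two_le {m : τ →₀ ℕ} (h : 2 ≤ m.degree) :
    ∃ a b, Finsupp.single a 1 + Finsupp.single b 1 ≤ m := by
  classical
  have h1 : m ≠ 0 := by rintro rfl; simp at h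
  obtain ⟨a, ha⟩ := Finsupp.ne_iff.mp h1
  have ha' : Finsupp.single a 1 ≤ m := by
    rw [Finsupp.single_le_iff]; exact Nat.one_le_iff_ne_zero.mpr ha
  have h2 : m - Finsupp.single a 1 ≠ 0 := by
    intro h0
    have h3 : m = Finsupp.single a 1 := by
      rw [← tsub_add_cancel_of_le ha', h0, zero_add]
    rw [h3, Finsupp.degree_single] at h
    omega
  obtain ⟨b, hb⟩ := Finsupp.ne_iff.mp h2
  have hb' : Finsupp.single b 1 ≤ m - Finsupp.single a 1 := by
    rw [Finsupp.single_le_iff]; exact Nat.one_le_iff_ne_zero.mpr hb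
  refine ⟨a, b, ?_⟩
  rw [← tsub_add_cancel_of_le ha', add_comm]
  exact add_le_add hb' le_rfl

lemma mem_sq [Fintype τ] {f : MvPowerSeries τ K} (hf : ∀ m : τ →₀ ℕ, m.degree ≤ 1 → coeff m f = 0) :
    f ∈ (IsLocalRing.maximalIdeal (MvPowerSeries τ K)) ^ 2 := by
  classical
  refine mem_of_support _ ((Finset.univ : Finset (τ × τ)).image
    (fun p => Finsupp.single p.1 1 + Finsupp.single p.2 1)).toList ?_ f ?_
  · intro n hn
    rw [Finset.mem_toList, Finset.mem_image] at hn
    obtain ⟨p, _, rfl⟩ := hn
    have := mono_mem (K := K) (Finsupp.single p.1 1 + Finsupp.single p.2 1)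
    rwa [map_add, Finsupp.degree_single, Finsupp.degree_single] at this
  · intro m hm
    apply hf
    by_contra hlt
    rw [not_le] at hlt
    obtain ⟨a, b, hab⟩ := exists_le_of_two_le hlt
    refine hm _ ?_ hab
    rw [Finset.mem_toList, Finset.mem_image]
    exact ⟨(a, b), Finset.mem_univ _, rfl⟩

/-- If a functional given by finitely many coefficients kills `f` times every monomial, it kills
the ideal generated by `f`. -/
lemma functional_kill {T : Type*} [Fintype T] (t : T → (τ →₀ ℕ)) {φ : MvPowerSeries τ K →ₗ[K] K}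
    (hφ : ∀ f, φ f = ∑ i, coeff (t i) f) {f : MvPowerSeries τ K}
    (h : ∀ v, φ (f * monomial v 1) = 0) (g : MvPowerSeries τ K) : φ (f * g) = 0 := by
  classical
  -- all exponents below some `t i`
  set S : Finset (τ →₀ ℕ) := Finset.univ.biUnion fun i => Finset.Iic (t i) with hS
  set g' : MvPowerSeries τ K := ∑ v ∈ S, coeff v g • monomial v (1 : K) with hg'
  have hg'c : ∀ v ∈ S, coeff v g' = coeff v g := by
    intro v hv
    rw [hg', map_sum, Finset.sum_eq_single v]
    · rw [map_smul, coeff_monomial_same, smul_eq_mul, mul_one]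
    · intro w _ hw
      rw [map_smul, coeff_monomial_ne hw.symm, smul_zero]
    · intro h; exact absurd hv h
  have h1 : φ (f * g) = φ (f * g') := by
    rw [hφ, hφ]
    refine Finset.sum_congr rfl fun i _ => ?_
    rw [coeff_mul, coeff_mul]
    refine Finset.sum_congr rfl fun p hp => ?_
    rw [Finset.HasAntidiagonal.mem_antidiagonal] at hp
    rw [hg'c p.2]
    rw [hS, Finset.mem_biUnion]
    refine ⟨i, Finset.mem_univ _, ?_⟩
    rw [Finset.mem_Iic, ← hp]
    exact le_add_self
  rw [h1, hg', Finset.mul_sum, map_sum]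
  refine Finset.sum_eq_zero fun v _ => ?_
  rw [mul_smul_comm, map_smul, h v, smul_zero]

end Pool.Agent.R832.NU
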